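import Pool.Agent.H12.ZD.Lin

/-!
# Extensions by affine maps: at most finitely many points of a fibre have a bad orbit
-/

open MvPolynomial

namespace Pool.Agent.H12.ZD

section

variable {k : Type*} [Field k] {N : ℕ}

/-- the value of `P` at the `n`-th point of the orbit of `(s, y)` -/
noncomputable def val (f' : Fin N → MvPolynomial (Fin N) k) (F : Polynomial (MvPolynomial (Fin N) k))
    (s : Fin N → k) (y : k) (P : Polynomial (MvPolynomial (Fin N) k)) (n : ℕ) : k :=
  (P.map (eval ((pmap f')^[n] s))).eval ((itp F (fun n => (pmap f')^[n] s) n).eval y)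

variable {f' : Fin N → MvPolynomial (Fin N) k} {F : Polynomial (MvPolynomial (Fin N) k)}
  {s : Fin N → k}

theorem val_pull (y : k) (P : Polynomial (MvPolynomial (Fin N) k)) (n : ℕ) :
    val f' F s y (pull f' F P) n = val f' F s y P (n + 1) := by
  rw [val, val, eval_pull, Function.iterate_succ_apply', itp, Polynomial.eval_comp]

theorem val_add (y : k) (P Q : Polynomial (MvPolynomial (Fin N) k)) (n : ℕ) :
    val f' F s y (P + Q) n = val f' F s y P n + val f' F s y Q n := by simp [val]

theorem val_sub (y : k) (P Q : Polynomial (MvPolynomial (Fin N) k)) (n : ℕ) :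
    val f' F s y (P - Q) n = val f' F s y P n - val f' F s y Q n := by simp [val]

theorem val_mul (y : k) (P Q : Polynomial (MvPolynomial (Fin N) k)) (n : ℕ) :
    val f' F s y (P * Q) n = val f' F s y P n * val f' F s y Q n := by simp [val]

theorem val_pow (y : k) (P : Polynomial (MvPolynomial (Fin N) k)) (m n : ℕ) :
    val f' F s y (P ^ m) n = val f' F s y P n ^ m := by simp [val]

theorem val_C (y : k) (c : MvPolynomial (Fin N) k) (n : ℕ) :
    val f' F s y (Polynomial.C c) n = eval ((pmap f')^[n] s) c := by simp [val]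

/-- A minimal polynomial of the orbit is semi-invariant. -/
theorem exists_semiinvariant (hdense : DenseOrbit f' s)
    (hσ : Function.Injective (aeval f' : MvPolynomial (Fin N) k → _)) (hF : F.natDegree = 1)
    (y : k) (hy : ∃ P : Polynomial (MvPolynomial (Fin N) k), P ≠ 0 ∧ ∀ n, val f' F s y P n = 0) :
    ∃ P : Polynomial (MvPolynomial (Fin N) k), P ≠ 0 ∧ (∀ n, val f' F s y P n = 0) ∧
      1 ≤ P.natDegree ∧ Polynomial.C P.leadingCoeff * pull f' F P =
        Polynomial.C (aeval f' P.leadingCoeff * F.leadingCoeff ^ P.natDegree) * P := by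
  classical
  have hex : ∃ B : ℕ, ∃ P : Polynomial (MvPolynomial (Fin N) k), P ≠ 0 ∧
      (∀ n, val f' F s y P n = 0) ∧ P.natDegree = B := by
    obtain ⟨P, h0, hP⟩ := hy
    exact ⟨P.natDegree, P, h0, hP, rfl⟩
  obtain ⟨P, hP0, hP, hdeg⟩ := Nat.find_spec hex
  have hmin : ∀ Q : Polynomial (MvPolynomial (Fin N) k), (∀ n, val f' F s y Q n = 0) →
      Q.natDegree < P.natDegree → Q = 0 := by
    intro Q hQ hlt
    by_contra hQ0
    rw [hdeg] at hlt
    exact Nat.find_min hex hlt ⟨Q, hQ0, hQ, rfl⟩
  have hF0 : F ≠ 0 := by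
    intro h0
    rw [h0, Polynomial.natDegree_zero] at hF
    omega
  have hσ' : Function.Injective (aeval f' : MvPolynomial (Fin N) k →ₐ[k] _).toRingHom := hσ
  have hlc : P.leadingCoeff ≠ 0 := Polynomial.leadingCoeff_ne_zero.mpr hP0
  have hσlc : (aeval f' P.leadingCoeff : MvPolynomial (Fin N) k) ≠ 0 := by
    intro h0
    exact hlc (hσ (by rw [h0, map_zero]))
  have hP1 : 1 ≤ P.natDegree := by
    by_contra hlt
    have h0 : P.natDegree = 0 := by omega
    rw [Polynomial.eq_C_of_natDegree_eq_zero h0] at hP hP0
    apply hP0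
    have h1 : P.coeff 0 = 0 := hdense _ (fun n => by
      have := hP n
      rwa [val_C] at this)
    rw [h1, map_zero]
  refine ⟨P, hP0, hP, hP1, ?_⟩
  have hmapdeg : (P.map (aeval f' : MvPolynomial (Fin N) k →ₐ[k] _).toRingHom).natDegree =
      P.natDegree := Polynomial.natDegree_map_eq_of_injective hσ' P
  have hpdeg : (pull f' F P).natDegree = P.natDegree := by
    rw [pull_apply, Polynomial.natDegree_comp, hmapdeg, hF, mul_one]
  have hplc : (pull f' F P).leadingCoeff =
      aeval f' P.leadingCoeff * F.leadingCoeff ^ P.natDegree := by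
    rw [pull_apply, Polynomial.leadingCoeff_comp (by rw [hF]; exact one_ne_zero), hmapdeg,
      Polynomial.leadingCoeff_map_of_injective hσ']
    rfl
  have hβ0 : (aeval f' P.leadingCoeff * F.leadingCoeff ^ P.natDegree : MvPolynomial (Fin N) k) ≠ 0 :=
    mul_ne_zero hσlc (pow_ne_zero _ (Polynomial.leadingCoeff_ne_zero.mpr hF0))
  have hp0 : pull f' F P ≠ 0 := by
    intro h0
    rw [h0, Polynomial.leadingCoeff_zero] at hplc
    exact hβ0 hplc.symm
  have hvan : ∀ n, val f' F s y (Polynomial.C P.leadingCoeff * pull f' F P -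
      Polynomial.C (aeval f' P.leadingCoeff * F.leadingCoeff ^ P.natDegree) * P) n = 0 := by
    intro n
    rw [val_sub, val_mul, val_mul, val_pull, hP, hP, mul_zero, mul_zero, sub_zero]
  rw [← sub_eq_zero]
  by_contra hne
  have hd1 : (Polynomial.C P.leadingCoeff * pull f' F P).degree = P.degree := by
    rw [Polynomial.degree_C_mul hlc, Polynomial.degree_eq_natDegree hp0, hpdeg,
      Polynomial.degree_eq_natDegree hP0]
  have hd2 : (Polynomial.C (aeval f' P.leadingCoeff * F.leadingCoeff ^ P.natDegree) * P).degree =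
      P.degree := Polynomial.degree_C_mul hβ0
  have hlt : (Polynomial.C P.leadingCoeff * pull f' F P -
      Polynomial.C (aeval f' P.leadingCoeff * F.leadingCoeff ^ P.natDegree) * P).degree <
      (Polynomial.C P.leadingCoeff * pull f' F P).degree := by
    apply Polynomial.degree_sub_lt_left
    · rw [hd1, hd2]
    · exact mul_ne_zero (Polynomial.C_ne_zero.mpr hlc) hp0
    · rw [Polynomial.leadingCoeff_mul, Polynomial.leadingCoeff_mul, Polynomial.leadingCoeff_C,
        Polynomial.leadingCoeff_C, hplc]
      ring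
  rw [hd1, Polynomial.degree_eq_natDegree hne, Polynomial.degree_eq_natDegree hP0] at hlt
  exact hne (hmin _ hvan (by exact_mod_cast hlt))

end

section

variable {k : Type*} [Field k] {N : ℕ} {f : Fin (N + 1) → MvPolynomial (Fin (N + 1)) k}
  {f' : Fin N → MvPolynomial (Fin N) k} {s : Fin N → k}

/-- Two semi-invariants are comparable if there is no invariant. -/
theorem compare (hf' : ∀ i, rename Fin.succ (f' i) = f i.succ) (hinv : NoInv f)
    (hσ : Function.Injective (aeval f' : MvPolynomial (Fin N) k → _))
    {P Q : Polynomial (MvPolynomial (Fin N) k)} (hP0 : P ≠ 0) (hQ0 : Q ≠ 0)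
    (hP : Polynomial.C P.leadingCoeff * pull f' (finSuccEquiv k N (f 0)) P = Polynomial.C
      (aeval f' P.leadingCoeff * (finSuccEquiv k N (f 0)).leadingCoeff ^ P.natDegree) * P)
    (hQ : Polynomial.C Q.leadingCoeff * pull f' (finSuccEquiv k N (f 0)) Q = Polynomial.C
      (aeval f' Q.leadingCoeff * (finSuccEquiv k N (f 0)).leadingCoeff ^ Q.natDegree) * Q) :
    ∃ c : k, P ^ Q.natDegree * Polynomial.C (Q.leadingCoeff ^ P.natDegree) =
      Polynomial.C (C c) * (Q ^ P.natDegree * Polynomial.C (P.leadingCoeff ^ Q.natDegree)) := by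
  set F := finSuccEquiv k N (f 0) with hF
  set A := P ^ Q.natDegree * Polynomial.C (Q.leadingCoeff ^ P.natDegree) with hA
  set B := Q ^ P.natDegree * Polynomial.C (P.leadingCoeff ^ Q.natDegree) with hB
  have hlP : P.leadingCoeff ≠ 0 := Polynomial.leadingCoeff_ne_zero.mpr hP0
  have hlQ : Q.leadingCoeff ≠ 0 := Polynomial.leadingCoeff_ne_zero.mpr hQ0
  have hB0 : B ≠ 0 := mul_ne_zero (pow_ne_zero _ hQ0) (Polynomial.C_ne_zero.mpr (pow_ne_zero _ hlP))
  have hpC : ∀ c : MvPolynomial (Fin N) k, pull f' F (Polynomial.C c) =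
      Polynomial.C (aeval f' c) := by
    intro c
    rw [pull_apply, Polynomial.map_C, Polynomial.C_comp]
    rfl
  have hkey : pull f' F A * B = pull f' F B * A := by
    have hc : Polynomial.C (P.leadingCoeff ^ Q.natDegree) *
        Polynomial.C (Q.leadingCoeff ^ P.natDegree) ≠ 0 :=
      mul_ne_zero (Polynomial.C_ne_zero.mpr (pow_ne_zero _ hlP))
        (Polynomial.C_ne_zero.mpr (pow_ne_zero _ hlQ))
    apply mul_left_cancel₀ hc
    have h1 : Polynomial.C (P.leadingCoeff ^ Q.natDegree) * pull f' F P ^ Q.natDegree =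
        (Polynomial.C (aeval f' P.leadingCoeff * F.leadingCoeff ^ P.natDegree) * P) ^
          Q.natDegree := by
      rw [← hP, mul_pow, map_pow]
    have h2 : Polynomial.C (Q.leadingCoeff ^ P.natDegree) * pull f' F Q ^ P.natDegree =
        (Polynomial.C (aeval f' Q.leadingCoeff * F.leadingCoeff ^ Q.natDegree) * Q) ^
          P.natDegree := by
      rw [← hQ, mul_pow, map_pow]
    have hAp : pull f' F A = pull f' F P ^ Q.natDegree *
        Polynomial.C (aeval f' Q.leadingCoeff ^ P.natDegree) := by
      rw [hA, map_mul, map_pow, hpC, map_pow]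
    have hBp : pull f' F B = pull f' F Q ^ P.natDegree *
        Polynomial.C (aeval f' P.leadingCoeff ^ Q.natDegree) := by
      rw [hB, map_mul, map_pow, hpC, map_pow]
    rw [hAp, hBp]
    calc Polynomial.C (P.leadingCoeff ^ Q.natDegree) * Polynomial.C (Q.leadingCoeff ^ P.natDegree) *
          (pull f' F P ^ Q.natDegree * Polynomial.C (aeval f' Q.leadingCoeff ^ P.natDegree) * B)
        = (Polynomial.C (P.leadingCoeff ^ Q.natDegree) * pull f' F P ^ Q.natDegree) *
          Polynomial.C (Q.leadingCoeff ^ P.natDegree) *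
          Polynomial.C (aeval f' Q.leadingCoeff ^ P.natDegree) * B := by ring
      _ = (Polynomial.C (Q.leadingCoeff ^ P.natDegree) * pull f' F Q ^ P.natDegree) *
          Polynomial.C (P.leadingCoeff ^ Q.natDegree) *
          Polynomial.C (aeval f' P.leadingCoeff ^ Q.natDegree) * A := by
        rw [h1, h2, hA, hB]
        simp only [map_mul, map_pow, mul_pow, ← pow_mul]
        ring
      _ = _ := by ring
  by_contra hcon
  push Not at hcon
  apply hinv
  clear_value A B
  obtain ⟨a, rfl⟩ := (finSuccEquiv k N).surjective A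
  obtain ⟨b, rfl⟩ := (finSuccEquiv k N).surjective B
  refine ⟨a, b, ?_, ?_, ?_⟩
  · intro h0
    exact hB0 (by rw [h0, map_zero])
  · intro c hc
    apply hcon c
    have h2 : finSuccEquiv k N (C c) = Polynomial.C (C c) := by
      rw [finSuccEquiv_apply]; simp
    rw [hc, map_mul, h2]
  · apply (finSuccEquiv k N).injective
    rw [map_mul, map_mul, finSuccEquiv_aeval hf', finSuccEquiv_aeval hf', ← hF]
    exact hkey

/-- If there is no invariant function, all but finitely many points of a fibre over a point with
dense orbit have a dense orbit. -/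
theorem exists_dense_of_affine (hf' : ∀ i, rename Fin.succ (f' i) = f i.succ) (hinv : NoInv f)
    (hσ : Function.Injective (aeval f' : MvPolynomial (Fin N) k → _))
    (hF : (finSuccEquiv k N (f 0)).natDegree = 1) (hdense : DenseOrbit f' s)
    (hα : ∀ n, eval ((pmap f')^[n] s) (finSuccEquiv k N (f 0)).leadingCoeff ≠ 0)
    (y : ℕ → k) (hy : Function.Injective y) : ∃ j, DenseOrbit f (Fin.cons (y j) s) := by
  classical
  by_contra hcon
  push Not at hcon
  set F := finSuccEquiv k N (f 0) with hFdef
  -- bad points have semi-invariants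
  have hbad : ∀ j, ∃ P : Polynomial (MvPolynomial (Fin N) k), P ≠ 0 ∧
      (∀ n, val f' F s (y j) P n = 0) ∧ 1 ≤ P.natDegree ∧
      Polynomial.C P.leadingCoeff * pull f' F P =
        Polynomial.C (aeval f' P.leadingCoeff * F.leadingCoeff ^ P.natDegree) * P := by
    intro j
    apply exists_semiinvariant hdense hσ hF
    have h1 := hcon j
    rw [DenseOrbit] at h1
    push Not at h1
    obtain ⟨h, hh, h0⟩ := h1
    refine ⟨finSuccEquiv k N h, ?_, ?_⟩
    · intro h2
      exact h0 ((finSuccEquiv k N).injective (by rw [h2, map_zero]))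
    · intro n
      have h2 := hh n
      rwa [iterate_cons hf', eval_eq_eval_mv_eval'] at h2
  choose P hP0 hPv hP1 hPs using hbad
  set B := (P 0).natDegree with hB
  -- a common good time
  have hprod : (∏ j ∈ Finset.range (B + 1), (P j).leadingCoeff) * (P 0).leadingCoeff ≠ 0 :=
    mul_ne_zero (Finset.prod_ne_zero_iff.mpr fun j _ =>
      Polynomial.leadingCoeff_ne_zero.mpr (hP0 j)) (Polynomial.leadingCoeff_ne_zero.mpr (hP0 0))
  obtain ⟨n, hn⟩ : ∃ n, eval ((pmap f')^[n] s)
      ((∏ j ∈ Finset.range (B + 1), (P j).leadingCoeff) * (P 0).leadingCoeff) ≠ 0 := by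
    by_contra hall
    push Not at hall
    exact hprod (hdense _ hall)
  rw [map_mul, map_prod] at hn
  have hn1 := mul_ne_zero_iff.mp hn
  have hnj : ∀ j ∈ Finset.range (B + 1), eval ((pmap f')^[n] s) (P j).leadingCoeff ≠ 0 :=
    Finset.prod_ne_zero_iff.mp hn1.1
  -- all the points are roots of the same polynomial
  set R : Polynomial k := (P 0).map (eval ((pmap f')^[n] s)) with hR
  have hR0 : R ≠ 0 := by
    intro h0
    apply hn1.2
    rw [Polynomial.leadingCoeff, ← Polynomial.coeff_map, ← hR, h0, Polynomial.coeff_zero]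
  have hRdeg : R.natDegree ≤ B := Polynomial.natDegree_map_le
  set Y : ℕ → k := fun j => (itp F (fun n => (pmap f')^[n] s) n).eval (y j) with hY
  have hroot : ∀ j ∈ Finset.range (B + 1), R.eval (Y j) = 0 := by
    intro j hj
    obtain ⟨c, hc⟩ := compare hf' hinv hσ (hP0 0) (hP0 j) (hPs 0) (hPs j)
    have h1 := congrArg (fun H => val f' F s (y j) H n) hc
    simp only [val_mul, val_pow, val_C, hPv j n, map_pow] at h1
    rw [zero_pow (by have := hP1 0; omega), zero_mul, mul_zero] at h1
    rcases mul_eq_zero.mp h1 with h2 | h2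
    · exact (pow_eq_zero_iff (by have := hP1 j; omega)).mp h2
    · exact absurd ((pow_eq_zero_iff (by have := hP1 0; omega)).mp h2) (hnj j hj)
  have hYinj : Function.Injective Y := by
    intro i j hij
    apply hy
    have hstep : ∀ m, (itp F (fun n => (pmap f')^[n] s) m).eval (y i) =
        (itp F (fun n => (pmap f')^[n] s) m).eval (y j) → y i = y j := by
      intro m
      induction m with
      | zero => intro h; simpa [itp] using h
      | succ m ih =>
        intro h
        apply ih
        rw [itp, Polynomial.eval_comp, Polynomial.eval_comp] at h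
        have hdeg1 : (F.map (eval ((pmap f')^[m] s))).natDegree ≤ 1 := by
          rw [← hF]; exact Polynomial.natDegree_map_le
        rw [Polynomial.eq_X_add_C_of_natDegree_le_one hdeg1] at h
        simp only [Polynomial.eval_add, Polynomial.eval_mul, Polynomial.eval_C,
          Polynomial.eval_X, Polynomial.coeff_map, add_left_inj] at h
        have hlead : eval ((pmap f')^[m] s) (F.coeff 1) ≠ 0 := by
          have := hα m
          rwa [Polynomial.leadingCoeff, hF] at this
        exact mul_left_cancel₀ hlead h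
    exact hstep n hij
  have hcard : B + 1 ≤ R.roots.toFinset.card := by
    calc B + 1 = (Finset.image Y (Finset.range (B + 1))).card := by
          rw [Finset.card_image_of_injective _ hYinj, Finset.card_range]
      _ ≤ _ := by
          apply Finset.card_le_card
          intro z hz
          obtain ⟨j, hj, rfl⟩ := Finset.mem_image.mp hz
          rw [Multiset.mem_toFinset, Polynomial.mem_roots hR0]
          exact hroot j hj
  have h3 : R.roots.toFinset.card ≤ B :=
    (Multiset.toFinset_card_le _).trans ((Polynomial.card_roots' R).trans hRdeg)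
  omega

end

end Pool.Agent.H12.ZD
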