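import Pool.Agent.H12.ZD.Good
import Pool.Agent.H12.ZD.Lin2

/-!
# Fibre degree at least two: escaping points over a recurrent dense orbit
-/

open MvPolynomial IsLocalRing

namespace Pool.Agent.H12.ZD

theorem finSuccEquiv_map {R S : Type*} [CommRing R] [CommRing S] (φ : R →+* S) {N : ℕ}
    (g : MvPolynomial (Fin (N + 1)) R) :
    finSuccEquiv S N (map φ g) = (finSuccEquiv R N g).map (map φ) := by
  induction g using MvPolynomial.induction_on with
  | C a => rw [map_C, finSuccEquiv_apply, finSuccEquiv_apply]; simp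
  | add p q hp hq => rw [map_add, map_add, hp, hq, map_add, Polynomial.map_add]
  | mul_X p i hp =>
    rw [map_mul, map_mul, hp, map_mul, Polynomial.map_mul, map_X]
    congr 1
    refine Fin.cases ?_ (fun j => ?_) i
    · rw [finSuccEquiv_X_zero, finSuccEquiv_X_zero, Polynomial.map_X]
    · rw [finSuccEquiv_X_succ, finSuccEquiv_X_succ, Polynomial.map_C, map_X]

/-- the coordinates of an orbit generate a number field -/
theorem exists_field {N : ℕ} (f : Fin N → MvPolynomial (Fin N) (AlgebraicClosure ℚ)) (s : Fin N → (AlgebraicClosure ℚ)) :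
    ∃ K : IntermediateField ℚ (AlgebraicClosure ℚ), FiniteDimensional ℚ K ∧ ∀ n i, (pmap f)^[n] s i ∈ K := by
  classical
  set S : Finset (AlgebraicClosure ℚ) := (Finset.univ.biUnion fun i => (f i).coeffs) ∪ Finset.univ.image s with hS
  set K := IntermediateField.adjoin ℚ (S : Set (AlgebraicClosure ℚ)) with hK
  have hfin : FiniteDimensional ℚ K :=
    IntermediateField.finiteDimensional_adjoin fun x _ =>
      (Algebra.IsAlgebraic.isAlgebraic (R := ℚ) x).isIntegral
  refine ⟨K, hfin, ?_⟩
  have hsub : (S : Set (AlgebraicClosure ℚ)) ⊆ K := IntermediateField.subset_adjoin ℚ _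
  have heval : ∀ (x : Fin N → (AlgebraicClosure ℚ)), (∀ i, x i ∈ K) → ∀ i, eval x (f i) ∈ K := by
    intro x hx i
    rw [eval_eq']
    apply sum_mem
    intro m hm
    apply mul_mem
    · apply hsub
      rw [hS, Finset.coe_union]
      left
      rw [Finset.mem_coe, Finset.mem_biUnion]
      refine ⟨i, Finset.mem_univ i, ?_⟩
      rw [mem_coeffs_iff]
      exact ⟨m, hm, rfl⟩
    · exact prod_mem fun j _ => pow_mem (hx j) _
  intro n
  induction n with
  | zero =>
    intro i
    apply hsub
    rw [hS, Finset.coe_union]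
    right
    simp
  | succ n ih =>
    intro i
    rw [Function.iterate_succ_apply']
    exact heval _ ih i

section

variable (p : Nat.Primes)

/-- a nonzero multiple of a polynomial is integral at a given place -/
theorem exists_scale {ι : Type*} (h : MvPolynomial ι (AlgebraicClosure ℚ)) : ∃ c : (AlgebraicClosure ℚ), c ≠ 0 ∧
    ∃ h₀ : MvPolynomial ι (O p), map (O p).subtype h₀ = C c * h := by
  classical
  have h1 : ∀ x : (AlgebraicClosure ℚ), ∃ M : ℕ, ∀ m ≥ M, v p x * (v p ((p : ℕ) : AlgebraicClosure ℚ)) ^ m ≤ 1 := by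
    intro x
    have h2 : Filter.Tendsto (fun n : ℕ => v p x * (v p ((p : ℕ) : AlgebraicClosure ℚ)) ^ n) Filter.atTop
        (nhds (v p x * 0)) :=
      (tendsto_pow_atTop_nhds_zero_of_lt_one (v_nonneg p _) (v_self_lt p)).const_mul _
    rw [mul_zero] at h2
    exact Filter.eventually_atTop.mp (h2.eventually_le_const one_pos)
  choose M hM using h1
  refine ⟨((p : ℕ) : AlgebraicClosure ℚ) ^ (h.coeffs.sup M), pow_ne_zero _ (by exact_mod_cast p.2.ne_zero), ?_⟩
  have h2 : C (((p : ℕ) : AlgebraicClosure ℚ) ^ (h.coeffs.sup M)) * h ∈ Set.range (map (O p).subtype) := by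
    rw [mem_range_map_iff_coeffs_subset]
    intro x hx
    rw [Finset.mem_coe, mem_coeffs_iff] at hx
    obtain ⟨m, hm, rfl⟩ := hx
    rw [coeff_C_mul]
    have hm' : coeff m h ∈ h.coeffs := by
      rw [mem_coeffs_iff]
      refine ⟨m, ?_, rfl⟩
      rw [mem_support_iff] at hm ⊢
      intro h0
      rw [coeff_C_mul, h0, mul_zero] at hm
      exact hm rfl
    have hint : v p (((p : ℕ) : AlgebraicClosure ℚ) ^ (h.coeffs.sup M) * coeff m h) ≤ 1 := by
      rw [v_mul, v_pow, mul_comm]
      exact hM _ _ (Finset.le_sup hm')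
    exact ⟨⟨_, hint⟩, rfl⟩
  exact h2

/-- the absolute value of a polynomial with integral coefficients at a large argument -/
theorem v_eval_eq (G₀ : Polynomial (O p)) {Y : (AlgebraicClosure ℚ)} {d : ℕ} (hd : 1 ≤ d) (hdeg : G₀.natDegree ≤ d)
    (hY : 1 ≤ v p Y) (h : 1 < v p ((G₀.coeff d : O p) : AlgebraicClosure ℚ) * v p Y) :
    v p ((G₀.map (O p).subtype).eval Y) = v p ((G₀.coeff d : O p) : AlgebraicClosure ℚ) * v p Y ^ d := by
  obtain ⟨e, rfl⟩ : ∃ e, d = e + 1 := ⟨d - 1, by omega⟩
  have h1 : (G₀.map (O p).subtype).eval Y =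
      ∑ i ∈ Finset.range (e + 1), ((G₀.coeff i : O p) : AlgebraicClosure ℚ) * Y ^ i +
        ((G₀.coeff (e + 1) : O p) : AlgebraicClosure ℚ) * Y ^ (e + 1) := by
    rw [Polynomial.eval_eq_sum_range' (n := e + 1 + 1) (lt_of_le_of_lt Polynomial.natDegree_map_le
      (Nat.lt_succ_of_le hdeg)), Finset.sum_range_succ]
    simp only [Polynomial.coeff_map]
    rfl
  have h2 : v p (((G₀.coeff (e + 1) : O p) : AlgebraicClosure ℚ) * Y ^ (e + 1)) =
      v p ((G₀.coeff (e + 1) : O p) : AlgebraicClosure ℚ) * v p Y ^ (e + 1) := by rw [v_mul, v_pow]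
  have hYpos : 0 < v p Y := by linarith
  have h3 : v p (∑ i ∈ Finset.range (e + 1), ((G₀.coeff i : O p) : AlgebraicClosure ℚ) * Y ^ i) ≤ v p Y ^ e := by
    apply v_sum_le p _ _ (by positivity)
    intro i hi
    rw [v_mul, v_pow]
    calc v p ((G₀.coeff i : O p) : AlgebraicClosure ℚ) * v p Y ^ i ≤ 1 * v p Y ^ i :=
          mul_le_mul_of_nonneg_right (G₀.coeff i).2 (by positivity)
      _ = v p Y ^ i := one_mul _
      _ ≤ v p Y ^ e := pow_le_pow_right₀ hY (by have := Finset.mem_range.mp hi; omega)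
  rw [← h2]
  apply v_eq_of_sub_lt
  rw [h1, add_sub_cancel_right]
  refine lt_of_le_of_lt h3 ?_
  rw [h2, pow_succ]
  have : 0 < v p Y ^ e := by positivity
  nlinarith

variable {p} {N : ℕ} {f : Fin (N + 1) → MvPolynomial (Fin (N + 1)) (AlgebraicClosure ℚ)}
  {f' : Fin N → MvPolynomial (Fin N) (AlgebraicClosure ℚ)}
  {f₀ : Fin (N + 1) → MvPolynomial (Fin (N + 1)) (O p)} {f₀' : Fin N → MvPolynomial (Fin N) (O p)}

/-- Over a recurrent dense orbit near a good cycle, an escaping point has a dense orbit. -/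
theorem dense_of_growth (hf' : ∀ i, rename Fin.succ (f' i) = f i.succ)
    (hf₀' : ∀ i, rename Fin.succ (f₀' i) = f₀ i.succ)
    (hf₀ : (fun i => map (O p).subtype (f₀ i)) = f) (htri : Tri f₀')
    (hdeg : 2 ≤ (finSuccEquiv (O p) N (f₀ 0)).natDegree) {z : Fin N → O p} {r : ℕ}
    (hz : GoodCycle p f₀' (finSuccEquiv (O p) N (f₀ 0)).leadingCoeff
      (fun i => residue (O p) (z i)) r)
    (hdense : DenseOrbit f' (fun i => (z i : AlgebraicClosure ℚ))) {y : (AlgebraicClosure ℚ)} (hy : 1 < v p y) :
    DenseOrbit f (Fin.cons y fun i => (z i : AlgebraicClosure ℚ)) := by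
  classical
  set F₀ := finSuccEquiv (O p) N (f₀ 0) with hF₀
  set s : Fin N → (AlgebraicClosure ℚ) := fun i => (z i : AlgebraicClosure ℚ) with hs
  have hf'₀ : (fun i => map (O p).subtype (f₀' i)) = f' := by
    ext1 i
    apply rename_injective (R := (AlgebraicClosure ℚ)) _ (Fin.succ_injective N)
    rw [hf' i, ← map_rename, hf₀' i, ← hf₀]
  have hsn : ∀ n, (pmap f')^[n] s = fun i => ((pmap f₀')^[n] z i : AlgebraicClosure ℚ) := by
    intro n
    rw [← hf'₀]
    exact pmap_iterate_map (O p).subtype f₀' z n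
  have hmapeval : ∀ (n : ℕ) (c : MvPolynomial (Fin N) (O p)),
      eval ((pmap f')^[n] s) (map (O p).subtype c) =
        ((eval ((pmap f₀')^[n] z) c : O p) : AlgebraicClosure ℚ) := by
    intro n c
    rw [hsn, eval_map]
    exact (eval₂_comp (O p).subtype ((pmap f₀')^[n] z) c).symm
  have hmap : ∀ (n : ℕ) (G : Polynomial (MvPolynomial (Fin N) (O p))),
      (G.map (map (O p).subtype)).map (eval ((pmap f')^[n] s)) =
        (G.map (eval ((pmap f₀')^[n] z))).map (O p).subtype := by
    intro n G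
    ext j
    rw [Polynomial.coeff_map, Polynomial.coeff_map, Polynomial.coeff_map, Polynomial.coeff_map]
    exact hmapeval n _
  have hF : finSuccEquiv (AlgebraicClosure ℚ) N (f 0) = F₀.map (map (O p).subtype) := by
    rw [← hf₀, hF₀, ← finSuccEquiv_map]
  set Y : ℕ → (AlgebraicClosure ℚ) := fun n =>
    (itp (finSuccEquiv (AlgebraicClosure ℚ) N (f 0)) (fun n => (pmap f')^[n] s) n).eval y with hY
  have hYsucc : ∀ n, Y (n + 1) =
      ((F₀.map (eval ((pmap f₀')^[n] z))).map (O p).subtype).eval (Y n) := by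
    intro n
    rw [hY]
    simp only [itp]
    rw [Polynomial.eval_comp]
    rw [← hmap n F₀, ← hF]
  -- growth
  have hgrow : ∀ n, v p y ^ (n + 1) ≤ v p (Y n) := by
    intro n
    induction n with
    | zero => simp [hY, itp]
    | succ n ih =>
      have h1 : (1 : ℝ) ≤ v p y ^ (n + 1) := one_le_pow₀ hy.le
      have h2 : v p y ≤ v p y ^ (n + 1) := by
        calc v p y = v p y ^ 1 := (pow_one _).symm
          _ ≤ v p y ^ (n + 1) := pow_le_pow_right₀ hy.le (by omega)
      have hYn : 1 < v p (Y n) := by linarith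
      have hlead : v p (((F₀.map (eval ((pmap f₀')^[n] z))).coeff F₀.natDegree : O p) : AlgebraicClosure ℚ) = 1 := by
        rw [Polynomial.coeff_map]
        exact hz.val_eq n
      rw [hYsucc, v_eval_eq p _ (by omega) Polynomial.natDegree_map_le hYn.le
        (by rw [hlead, one_mul]; exact hYn), hlead, one_mul]
      calc v p y ^ (n + 1 + 1) = v p y ^ (n + 1) * v p y := pow_succ _ _
        _ ≤ v p (Y n) * v p (Y n) := by
            apply mul_le_mul ih (by linarith) (by linarith) (by linarith)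
        _ = v p (Y n) ^ 2 := by ring
        _ ≤ v p (Y n) ^ F₀.natDegree := pow_le_pow_right₀ hYn.le hdeg
  -- density
  intro h hh
  by_contra hne
  obtain ⟨c, hc, h₀, hh₀⟩ := exists_scale p h
  set H₀ := finSuccEquiv (O p) N h₀ with hH₀
  have hinj : Function.Injective (map (O p).subtype : MvPolynomial (Fin N) (O p) → _) :=
    map_injective _ (O p).subtype_injective
  have hH₀0 : H₀ ≠ 0 := by
    intro h0
    have h1 : h₀ = 0 := (finSuccEquiv (O p) N).injective (by rw [← hH₀, h0, map_zero])
    rw [h1, map_zero] at hh₀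
    rcases mul_eq_zero.mp hh₀.symm with h2 | h2
    · exact hc (by rwa [C_eq_zero] at h2)
    · exact hne h2
  have hvan : ∀ n, ((H₀.map (eval ((pmap f₀')^[n] z))).map (O p).subtype).eval (Y n) = 0 := by
    intro n
    have h1 : eval ((pmap f)^[n] (Fin.cons y s)) (C c * h) = 0 := by
      rw [map_mul, hh n, mul_zero]
    rw [← hh₀, iterate_cons hf', eval_eq_eval_mv_eval', finSuccEquiv_map, hmap] at h1
    exact h1
  -- the leading coefficient does not vanish at some time `m`
  obtain ⟨m, hm⟩ : ∃ m, eval ((pmap f')^[m] s) (map (O p).subtype H₀.leadingCoeff) ≠ 0 := by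
    by_contra hall
    push Not at hall
    have h1 := hdense _ hall
    exact (Polynomial.leadingCoeff_ne_zero.mpr hH₀0) (hinj (by rw [h1, map_zero]))
  rw [hmapeval] at hm
  set γ := v p ((eval ((pmap f₀')^[m] z) H₀.leadingCoeff : O p) : AlgebraicClosure ℚ) with hγ
  have hγ0 : 0 < γ := (v_pos p).mpr hm
  obtain ⟨K, hKfin, hK⟩ := exists_field f' s
  obtain ⟨t, ht, hrec⟩ := hz.recurrence htri K (fun n i => by
    have := hK n i
    rw [hsn n] at this
    exact this) hγ0
  have hrec' : ∀ k i, v p (((pmap f₀')^[m + k * t] z i : AlgebraicClosure ℚ) - (pmap f₀')^[m] z i) < γ := by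
    intro k
    induction k with
    | zero => intro i; simpa using hγ0
    | succ k ih =>
      intro i
      have h1 := hrec (m + k * t) i
      rw [v_sub_comm, show m + k * t + t = m + (k + 1) * t by ring] at h1
      have h2 := v_add_lt p h1 (ih i)
      rwa [sub_add_sub_cancel] at h2
  have hγk : ∀ k, v p ((eval ((pmap f₀')^[m + k * t] z) H₀.leadingCoeff : O p) : AlgebraicClosure ℚ) = γ := by
    intro k
    rw [hγ]
    apply v_eq_of_sub_lt
    exact close_eval p _ _ _ hγ0 (hrec' k)
  -- contradiction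
  rcases Nat.eq_zero_or_pos H₀.natDegree with hd | hd
  · have h1 := hvan m
    rw [Polynomial.eq_C_of_natDegree_eq_zero hd, Polynomial.map_C, Polynomial.map_C,
      Polynomial.eval_C] at h1
    apply hm
    rw [Polynomial.leadingCoeff, hd]
    exact h1
  · have hle : ∀ k, γ * v p (Y (m + k * t)) ≤ 1 := by
      intro k
      by_contra hlt
      rw [not_le] at hlt
      have hY1 : 1 ≤ v p (Y (m + k * t)) := by
        have h1 : (1 : ℝ) ≤ v p y ^ (m + k * t + 1) := one_le_pow₀ hy.le
        exact h1.trans (hgrow _)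
      have h1 := v_eval_eq p (H₀.map (eval ((pmap f₀')^[m + k * t] z))) (Y := Y (m + k * t)) hd
        Polynomial.natDegree_map_le hY1 (by
          rw [Polynomial.coeff_map]
          have := hγk k
          rw [Polynomial.leadingCoeff] at this
          rw [this]
          exact hlt)
      rw [hvan, v_zero, Polynomial.coeff_map] at h1
      have h2 := hγk k
      rw [Polynomial.leadingCoeff] at h2
      rw [h2] at h1
      have h3 : 0 < γ * v p (Y (m + k * t)) ^ H₀.natDegree := by positivity
      rw [← h1] at h3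
      exact lt_irrefl _ h3
    obtain ⟨k, hk⟩ : ∃ k : ℕ, 1 / γ < v p y ^ k := pow_unbounded_of_one_lt _ hy
    have h1 := hle k
    have h2 : v p y ^ k ≤ v p (Y (m + k * t)) := by
      refine le_trans ?_ (hgrow _)
      apply pow_le_pow_right₀ hy.le
      nlinarith
    rw [div_lt_iff₀ hγ0] at hk
    nlinarith

end

end Pool.Agent.H12.ZD
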