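import Pool.Agent.H12.ZD.Local

/-!
# Good cycles at almost all places and recurrence
-/

open MvPolynomial IsLocalRing

namespace Pool.Agent.H12.ZD

section maps

variable {R S : Type*} [CommRing R] [CommRing S] {N : ℕ}

theorem pmap_map (φ : R →+* S) (f : Fin N → MvPolynomial (Fin N) R) (z : Fin N → R) :
    pmap (fun i => map φ (f i)) (fun i => φ (z i)) = fun i => φ (pmap f z i) := by
  ext i
  rw [pmap, pmap, eval_map, eval₂_comp]
  rfl

theorem pmap_iterate_map (φ : R →+* S) (f : Fin N → MvPolynomial (Fin N) R) (z : Fin N → R)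
    (n : ℕ) : (pmap (fun i => map φ (f i)))^[n] (fun i => φ (z i)) =
      fun i => φ ((pmap f)^[n] z i) := by
  induction n with
  | zero => rfl
  | succ n ih =>
    rw [Function.iterate_succ_apply', ih, pmap_map, Function.iterate_succ_apply']

theorem Tri.map (φ : R →+* S) {f : Fin N → MvPolynomial (Fin N) R} (h : Tri f) :
    Tri (fun i => MvPolynomial.map φ (f i)) := fun i j hj => h i j (vars_map _ _ hj)

theorem Tri.of_map (φ : R →+* S) (hφ : Function.Injective φ) {f : Fin N → MvPolynomial (Fin N) R}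
    (h : Tri (fun i => MvPolynomial.map φ (f i))) : Tri f := fun i j hj =>
  h i j (by rw [vars_map_of_injective (f i) hφ]; exact hj)

end maps

/-- integral polynomials at almost all places -/
theorem exists_bound_lift {ι : Type*} (b : MvPolynomial ι (AlgebraicClosure ℚ)) : ∃ M : ℕ, ∀ p : Nat.Primes,
    M < p → ∃ b₀ : MvPolynomial ι (O p), map (O p).subtype b₀ = b ∧
      (b ≠ 0 → map (residue (O p)) b₀ ≠ 0) := by
  classical
  obtain ⟨M₁, h₁⟩ := exists_bound_finset (b.coeffs)
  have h₂ : ∃ M₂ : ℕ, ∀ p : Nat.Primes, M₂ < p → b ≠ 0 → ∃ m, v p (coeff m b) = 1 := by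
    by_cases hb : b = 0
    · exact ⟨0, fun p _ h => absurd hb h⟩
    · obtain ⟨m, hm⟩ := ne_zero_iff.mp hb
      obtain ⟨M₂, h₂⟩ := exists_bound_eq hm
      exact ⟨M₂, fun p hp _ => ⟨m, h₂ p hp⟩⟩
  obtain ⟨M₂, h₂⟩ := h₂
  refine ⟨max M₁ M₂, fun p hp => ?_⟩
  have hp1 := lt_of_le_of_lt (le_max_left M₁ M₂) hp
  have hp2 := lt_of_le_of_lt (le_max_right M₁ M₂) hp
  obtain ⟨b₀, hb₀⟩ : b ∈ Set.range (map (O p).subtype) := by
    rw [mem_range_map_iff_coeffs_subset]
    intro x hx
    exact ⟨⟨x, h₁ p hp1 x hx⟩, rfl⟩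
  refine ⟨b₀, hb₀, fun hb h0 => ?_⟩
  obtain ⟨m, hm⟩ := h₂ p hp2 hb
  rw [← hb₀, coeff_map] at hm
  have h3 := (residue_ne_zero p).mpr hm
  apply h3
  rw [← coeff_map, h0, coeff_zero]

/-- integral systems at almost all places -/
theorem exists_bound_system {N : ℕ} (f : Fin N → MvPolynomial (Fin N) (AlgebraicClosure ℚ)) : ∃ M : ℕ,
    ∀ p : Nat.Primes, M < p → ∃ f₀ : Fin N → MvPolynomial (Fin N) (O p),
      (fun i => map (O p).subtype (f₀ i)) = f := by
  choose M hM using fun i => exists_bound_lift (f i)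
  refine ⟨Finset.univ.sup M, fun p hp => ?_⟩
  choose f₀ hf₀ using fun i => hM i p (lt_of_le_of_lt (Finset.le_sup (Finset.mem_univ i)) hp)
  exact ⟨f₀, funext fun i => (hf₀ i).1⟩

/-- `z̄` is a good periodic point of the reduction of `f₀`: periodic of period `r`, with fibre
derivatives and `b₀` nonzero along the orbit -/
structure GoodCycle (p : Nat.Primes) {N : ℕ} (f₀ : Fin N → MvPolynomial (Fin N) (O p))
    (b₀ : MvPolynomial (Fin N) (O p)) (zb : Fin N → Res p) (r : ℕ) : Prop where
  pos : 1 ≤ r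
  per : (pmap fun i => map (residue (O p)) (f₀ i))^[r] zb = zb
  der : ∀ t i, eval ((pmap fun i => map (residue (O p)) (f₀ i))^[t] zb)
    (pderiv i (map (residue (O p)) (f₀ i))) ≠ 0
  val : ∀ t, eval ((pmap fun i => map (residue (O p)) (f₀ i))^[t] zb)
    (map (residue (O p)) b₀) ≠ 0

theorem exists_goodCycle {N : ℕ} (f : Fin N → MvPolynomial (Fin N) (AlgebraicClosure ℚ)) (hf : Tri f)
    (hdeg : ∀ i, 1 ≤ (f i).degreeOf i) (b : MvPolynomial (Fin N) (AlgebraicClosure ℚ)) (hb : b ≠ 0) :
    ∃ M : ℕ, ∀ p : Nat.Primes, M < p → ∀ f₀ : Fin N → MvPolynomial (Fin N) (O p),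
      (fun i => map (O p).subtype (f₀ i)) = f → ∀ b₀ : MvPolynomial (Fin N) (O p),
      map (O p).subtype b₀ = b → ∃ zb r, GoodCycle p f₀ b₀ zb r := by
  classical
  -- the fibre derivatives are nonzero
  have hder : ∀ i, pderiv i (f i) ≠ 0 := by
    intro i h0
    have h1 : ∀ m, m i ≠ 0 → coeff m (f i) = 0 := by
      intro m hm
      have h2 := congrArg (coeff (m - Finsupp.single i 1)) h0
      rw [coeff_pderiv, coeff_zero] at h2
      have h3 : m - Finsupp.single i 1 + Finsupp.single i 1 = m := by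
        apply tsub_add_cancel_of_le
        rw [Finsupp.single_le_iff]
        omega
      rw [h3] at h2
      rcases mul_eq_zero.mp h2 with h4 | h4
      · exact h4
      · exfalso
        have : ((m i : ℕ) : AlgebraicClosure ℚ) = 0 := by
          have h5 : (m - Finsupp.single i 1 : Fin N →₀ ℕ) i + 1 = m i := by
            rw [Finsupp.tsub_apply, Finsupp.single_eq_same]; omega
          rw [← h5]; push_cast; exact h4
        exact hm (by exact_mod_cast this)
    have h2 := hdeg i
    have h3 : (f i).degreeOf i = 0 := by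
      rw [degreeOf_eq_sup]
      apply Nat.le_zero.mp
      apply Finset.sup_le
      intro m hm
      by_contra hne
      exact (mem_support_iff.mp hm) (h1 m (by omega))
    omega
  set c : MvPolynomial (Fin N) (AlgebraicClosure ℚ) := b * ∏ i, pderiv i (f i) with hc
  have hc0 : c ≠ 0 := mul_ne_zero hb (Finset.prod_ne_zero_iff.mpr fun i _ => hder i)
  obtain ⟨M₁, h₁⟩ := exists_bound_lift c
  refine ⟨max M₁ 2, fun p hp f₀ hf₀ b₀ hb₀ => ?_⟩
  obtain ⟨c₀, hc₀, hc₀'⟩ := h₁ p (lt_of_le_of_lt (le_max_left _ _) hp)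
  have hp2 : 2 < (p : ℕ) := lt_of_le_of_lt (le_max_right M₁ 2) hp
  have hinj : Function.Injective (map (O p).subtype : MvPolynomial (Fin N) (O p) → _) :=
    map_injective _ (O p).subtype_injective
  have hc₀eq : c₀ = b₀ * ∏ i, pderiv i (f₀ i) := by
    apply hinj
    rw [hc₀, map_mul, hb₀, map_prod, hc]
    congr 1
    apply Finset.prod_congr rfl
    intro i _
    rw [← pderiv_map, ← hf₀]
  have hc₀res := hc₀' hc0
  have hc₀res' : map (residue (O p)) c₀ = map (residue (O p)) b₀ *
      ∏ i, pderiv i (map (residue (O p)) (f₀ i)) := by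
    rw [hc₀eq, map_mul, map_prod]
    congr 1
    apply Finset.prod_congr rfl
    intro i _
    rw [← pderiv_map]
  have htri₀ : Tri f₀ := by
    apply Tri.of_map (O p).subtype (O p).subtype_injective
    rw [hf₀]; exact hf
  have hdegres : ∀ i, 1 ≤ (map (residue (O p)) (f₀ i)).degreeOf i := by
    intro i
    by_contra hlt
    have h0 : (map (residue (O p)) (f₀ i)).degreeOf i = 0 := by omega
    have h1 : pderiv i (map (residue (O p)) (f₀ i)) = 0 := by
      apply pderiv_eq_zero_of_notMem_vars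
      rw [vars_def, Multiset.mem_toFinset, ← Multiset.count_eq_zero]
      rw [degreeOf_def] at h0
      convert h0
    apply hc₀res
    rw [hc₀res', Finset.prod_eq_zero (Finset.mem_univ i) h1, mul_zero]
  obtain ⟨Q, r, hr, hper, hQ⟩ := exists_cycle (κ := Res p) (p := (p : ℕ)) p.2.one_lt.le
    (res_cast p) (by
      have := res_natCast_ne_zero p (n := 2) (fun h => by
        have := Nat.le_of_dvd (by norm_num) h
        omega)
      exact_mod_cast this) (res_finite_order p) N _ (htri₀.map (residue (O p))) hdegres _ hc₀res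
  have hQ' : ∀ t, eval ((pmap fun i => map (residue (O p)) (f₀ i))^[t] Q)
      (map (residue (O p)) b₀) ≠ 0 ∧ ∀ i,
      eval ((pmap fun i => map (residue (O p)) (f₀ i))^[t] Q)
        (pderiv i (map (residue (O p)) (f₀ i))) ≠ 0 := by
    intro t
    have h1 := hQ t
    rw [hc₀res', map_mul, map_prod] at h1
    have h2 := mul_ne_zero_iff.mp h1
    exact ⟨h2.1, fun i => (Finset.prod_ne_zero_iff.mp h2.2) i (Finset.mem_univ i)⟩
  exact ⟨Q, r, hr, hper, fun t i => (hQ' t).2 i, fun t => (hQ' t).1⟩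

section near

variable {p : Nat.Primes} {N : ℕ} {f₀ : Fin N → MvPolynomial (Fin N) (O p)}
  {b₀ : MvPolynomial (Fin N) (O p)} {z : Fin N → O p} {r : ℕ}

theorem GoodCycle.residue_eval (t : ℕ) (c₀ : MvPolynomial (Fin N) (O p)) :
    eval ((pmap fun i => map (residue (O p)) (f₀ i))^[t] (fun i => residue (O p) (z i)))
      (map (residue (O p)) c₀) = residue (O p) (eval ((pmap f₀)^[t] z) c₀) := by
  rw [pmap_iterate_map, eval_map, eval₂_comp]
  rfl

theorem GoodCycle.val_eq (h : GoodCycle p f₀ b₀ (fun i => residue (O p) (z i)) r) (t : ℕ) :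
    v p ((eval ((pmap f₀)^[t] z) b₀ : O p) : AlgebraicClosure ℚ) = 1 := by
  rw [← residue_ne_zero, ← GoodCycle.residue_eval]
  exact h.val t

theorem GoodCycle.der_eq (h : GoodCycle p f₀ b₀ (fun i => residue (O p) (z i)) r) (t : ℕ)
    (i : Fin N) : v p ((eval ((pmap f₀)^[t] z) (pderiv i (f₀ i)) : O p) : AlgebraicClosure ℚ) = 1 := by
  rw [← residue_ne_zero, ← GoodCycle.residue_eval]
  have := h.der t i
  rwa [pderiv_map] at this

theorem GoodCycle.per_eq (h : GoodCycle p f₀ b₀ (fun i => residue (O p) (z i)) r) (a t : ℕ)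
    (i : Fin N) : v p (((pmap f₀)^[a] z i : AlgebraicClosure ℚ) - (pmap f₀)^[a + t * r] z i) < 1 := by
  rw [← residue_eq]
  have h1 : (pmap fun i => map (residue (O p)) (f₀ i))^[a + t * r]
      (fun i => residue (O p) (z i)) =
      (pmap fun i => map (residue (O p)) (f₀ i))^[a] (fun i => residue (O p) (z i)) := by
    rw [Function.iterate_add_apply, mul_comm, Function.iterate_mul,
      Function.iterate_fixed h.per]
  rw [pmap_iterate_map, pmap_iterate_map] at h1
  exact (congrFun h1 i).symm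

/-- **Recurrence**: near a good cycle the orbit of an algebraic point returns arbitrarily close. -/
theorem GoodCycle.recurrence (h : GoodCycle p f₀ b₀ (fun i => residue (O p) (z i)) r)
    (htri : Tri f₀) (K : IntermediateField ℚ (AlgebraicClosure ℚ)) [FiniteDimensional ℚ K]
    (hK : ∀ n i, ((pmap f₀)^[n] z i : AlgebraicClosure ℚ) ∈ K) {ε : ℝ} (hε : 0 < ε) :
    ∃ t : ℕ, 1 ≤ t ∧ ∀ m i, v p (((pmap f₀)^[m] z i : AlgebraicClosure ℚ) - (pmap f₀)^[m + t] z i) < ε := by
  obtain ⟨i, j, hij, hclose⟩ := exists_close p K (fun n l => ((pmap f₀)^[n * r] z l : AlgebraicClosure ℚ))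
    (fun n l => hK _ l) (fun n l => ((pmap f₀)^[n * r] z l).2) hε
  obtain ⟨c, rfl⟩ : ∃ c, j = i + c := ⟨j - i, by omega⟩
  have hc : 1 ≤ c := by omega
  have hr := h.pos
  -- go back to time zero
  have back : ∀ a, (∀ l, v p (((pmap f₀)^[a] z l : AlgebraicClosure ℚ) - (pmap f₀)^[a + c * r] z l) < ε) →
      ∀ l, v p ((z l : AlgebraicClosure ℚ) - (pmap f₀)^[c * r] z l) < ε := by
    intro a
    induction a with
    | zero =>
      intro h1 l
      have := h1 l
      rwa [Nat.zero_add, Function.iterate_zero, id] at this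
    | succ a iha =>
      intro h1
      apply iha
      apply close_of_pmap p N f₀ htri _ _ ε hε (h.per_eq a c) (h.der_eq a)
      intro l
      have h2 := h1 l
      rwa [Function.iterate_succ_apply', show a + 1 + c * r = (a + c * r) + 1 by ring,
        Function.iterate_succ_apply'] at h2
  have h0 : ∀ l, v p ((z l : AlgebraicClosure ℚ) - (pmap f₀)^[c * r] z l) < ε := by
    apply back (i * r)
    intro l
    have := hclose l
    rwa [show (i + c) * r = i * r + c * r by ring] at this
  refine ⟨c * r, Nat.one_le_iff_ne_zero.mpr (by positivity), ?_⟩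
  intro m
  induction m with
  | zero =>
    intro l
    rw [Nat.zero_add]
    exact h0 l
  | succ m ihm =>
    intro l
    rw [show m + 1 + c * r = (m + c * r) + 1 by ring, Function.iterate_succ_apply',
      Function.iterate_succ_apply']
    exact close_eval p (f₀ l) _ _ hε ihm

end near

end Pool.Agent.H12.ZD
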