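import Pool.Agent.H12.ZD.Tri
import Pool.Agent.H12.ZD.Residue

/-!
# Triangular maps over the valuation ring
-/

open MvPolynomial IsLocalRing

namespace Pool.Agent.H12.ZD

theorem eval_pderiv_zero {R : Type*} [CommRing R] {N : ℕ} (g : MvPolynomial (Fin (N + 1)) R)
    (y : R) (s : Fin N → R) : eval (Fin.cons y s : Fin (N + 1) → R) (pderiv 0 g) =
      (Polynomial.derivative ((finSuccEquiv R N g).map (eval s))).eval y := by
  induction g using MvPolynomial.induction_on with
  | C a => simp [finSuccEquiv_apply]
  | add p q hp hq => simp [hp, hq]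
  | mul_X p i hp =>
    rw [pderiv_mul, map_add, map_mul, map_mul, hp, map_mul, Polynomial.map_mul,
      Polynomial.derivative_mul, Polynomial.eval_add, Polynomial.eval_mul, Polynomial.eval_mul,
      ← eval_eq_eval_mv_eval']
    refine Fin.cases ?_ (fun j => ?_) i
    · rw [finSuccEquiv_X_zero, pderiv_X_self]
      simp [eval_eq_eval_mv_eval']
    · rw [finSuccEquiv_X_succ, pderiv_X_of_ne (Fin.succ_ne_zero j)]
      simp

section

variable (p : Nat.Primes)

theorem close_eval {ι : Type*} (b : MvPolynomial ι (O p)) (z z' : ι → O p) {ε : ℝ} (hε : 0 < ε)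
    (h : ∀ i, v p ((z i : AlgebraicClosure ℚ) - z' i) < ε) :
    v p ((eval z b : O p) - (eval z' b : O p) : AlgebraicClosure ℚ) < ε := by
  induction b using MvPolynomial.induction_on with
  | C a => simpa using hε
  | add b c hb hc =>
    have h1 : ((eval z (b + c) : O p) : AlgebraicClosure ℚ) - (eval z' (b + c) : O p) =
        (((eval z b : O p) : AlgebraicClosure ℚ) - (eval z' b : O p)) +
          (((eval z c : O p) : AlgebraicClosure ℚ) - (eval z' c : O p)) := by
      rw [map_add, map_add]
      push_cast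
      ring
    rw [h1]
    exact v_add_lt p hb hc
  | mul_X b i hb =>
    have h1 : ((eval z (b * X i) : O p) : AlgebraicClosure ℚ) - (eval z' (b * X i) : O p) =
        ((eval z b : O p) : AlgebraicClosure ℚ) * ((z i : AlgebraicClosure ℚ) - z' i) +
          (((eval z b : O p) : AlgebraicClosure ℚ) - (eval z' b : O p)) * (z' i : AlgebraicClosure ℚ) := by
      rw [map_mul, map_mul, eval_X, eval_X]
      push_cast
      ring
    rw [h1]
    apply v_add_lt
    · rw [v_mul]
      calc v p ((eval z b : O p) : AlgebraicClosure ℚ) * v p ((z i : AlgebraicClosure ℚ) - z' i) ≤ 1 * v p ((z i : AlgebraicClosure ℚ) - z' i) :=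
            mul_le_mul_of_nonneg_right (eval z b : O p).2 (v_nonneg p _)
        _ < ε := by rw [one_mul]; exact h i
    · rw [v_mul]
      calc v p (((eval z b : O p) : AlgebraicClosure ℚ) - (eval z' b : O p)) * v p (z' i : AlgebraicClosure ℚ)
          ≤ v p (((eval z b : O p) : AlgebraicClosure ℚ) - (eval z' b : O p)) * 1 :=
            mul_le_mul_of_nonneg_left (z' i).2 (v_nonneg p _)
        _ < ε := by rw [mul_one]; exact hb

theorem close_eval' (G : Polynomial (O p)) (x y : O p) {ε : ℝ} (h : v p ((x : AlgebraicClosure ℚ) - y) < ε) :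
    v p ((G.eval x : O p) - (G.eval y : O p) : AlgebraicClosure ℚ) < ε := by
  obtain ⟨w, hw⟩ := G.evalSubFactor x y
  have h1 : ((G.eval x : O p) : AlgebraicClosure ℚ) - (G.eval y : O p) = (w : AlgebraicClosure ℚ) * ((x : AlgebraicClosure ℚ) - y) := by
    have := congrArg (fun z : O p => (z : AlgebraicClosure ℚ)) hw
    simpa using this
  rw [h1, v_mul]
  calc v p (w : AlgebraicClosure ℚ) * v p ((x : AlgebraicClosure ℚ) - y) ≤ 1 * v p ((x : AlgebraicClosure ℚ) - y) :=
        mul_le_mul_of_nonneg_right w.2 (v_nonneg p _)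
    _ < ε := by rw [one_mul]; exact h

/-- a polynomial is injective, with good control, near a point where the derivative is a unit -/
theorem close_of_eval (G : Polynomial (O p)) (x y : O p) {ε : ℝ} (hxy : v p ((x : AlgebraicClosure ℚ) - y) < 1)
    (hd : v p ((G.derivative.eval x : O p) : AlgebraicClosure ℚ) = 1)
    (h : v p ((G.eval x : O p) - (G.eval y : O p) : AlgebraicClosure ℚ) < ε) : v p ((x : AlgebraicClosure ℚ) - y) < ε := by
  obtain ⟨w, hw⟩ := G.binomExpansion x (y - x)
  rw [add_sub_cancel] at hw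
  have h1 : ((G.eval x : O p) : AlgebraicClosure ℚ) - (G.eval y : O p) =
      ((x : AlgebraicClosure ℚ) - y) * (((G.derivative.eval x : O p) : AlgebraicClosure ℚ) - (w : AlgebraicClosure ℚ) * ((x : AlgebraicClosure ℚ) - y)) := by
    have := congrArg (fun z : O p => (z : AlgebraicClosure ℚ)) hw
    push_cast at this
    rw [this]
    ring
  have h2 : v p ((w : AlgebraicClosure ℚ) * ((x : AlgebraicClosure ℚ) - y)) < 1 := by
    rw [v_mul]
    calc v p (w : AlgebraicClosure ℚ) * v p ((x : AlgebraicClosure ℚ) - y) ≤ 1 * v p ((x : AlgebraicClosure ℚ) - y) :=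
          mul_le_mul_of_nonneg_right w.2 (v_nonneg p _)
      _ < 1 := by rw [one_mul]; exact hxy
  have h3 : v p (((G.derivative.eval x : O p) : AlgebraicClosure ℚ) - (w : AlgebraicClosure ℚ) * ((x : AlgebraicClosure ℚ) - y)) = 1 := by
    rw [← hd]
    apply v_eq_of_sub_lt
    rw [hd]
    have : ((G.derivative.eval x : O p) : AlgebraicClosure ℚ) - (w : AlgebraicClosure ℚ) * ((x : AlgebraicClosure ℚ) - y) -
        ((G.derivative.eval x : O p) : AlgebraicClosure ℚ) = - ((w : AlgebraicClosure ℚ) * ((x : AlgebraicClosure ℚ) - y)) := by ring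
    rw [this, v_neg]
    exact h2
  rwa [h1, v_mul, h3, mul_one] at h

/-- a triangular map is injective, with good control, near a point where the fibre derivatives are
units -/
theorem close_of_pmap : ∀ (N : ℕ) (f : Fin N → MvPolynomial (Fin N) (O p)), Tri f →
    ∀ (z z' : Fin N → O p) (ε : ℝ), 0 < ε → (∀ i, v p ((z i : AlgebraicClosure ℚ) - z' i) < 1) →
      (∀ i, v p ((eval z (pderiv i (f i)) : O p) : AlgebraicClosure ℚ) = 1) →
      (∀ i, v p (((pmap f z i : O p) : AlgebraicClosure ℚ) - (pmap f z' i : O p)) < ε) → ∀ i, v p ((z i : AlgebraicClosure ℚ) - z' i) < ε := by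
  intro N
  induction N with
  | zero => intro _ _ _ _ _ _ _ _ _ i; exact i.elim0
  | succ N ih =>
    intro f hf z z' ε hε hz hd h
    obtain ⟨f', hf'tri, hf'⟩ := hf.exists_tail
    obtain ⟨y, s, rfl⟩ : ∃ y s, z = Fin.cons y s := ⟨z 0, Fin.tail z, (Fin.cons_self_tail z).symm⟩
    obtain ⟨y', s', rfl⟩ : ∃ y' s', z' = Fin.cons y' s' :=
      ⟨z' 0, Fin.tail z', (Fin.cons_self_tail z').symm⟩
    have hs1 : ∀ i, v p ((s i : AlgebraicClosure ℚ) - s' i) < 1 := fun i => by simpa using hz i.succ
    have hy1 : v p ((y : AlgebraicClosure ℚ) - y') < 1 := by simpa using hz 0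
    have hds : ∀ i, v p ((eval s (pderiv i (f' i)) : O p) : AlgebraicClosure ℚ) = 1 := by
      intro i
      have h1 := hd i.succ
      rw [← hf' i, pderiv_rename (Fin.succ_injective N), eval_rename] at h1
      have h2 : (Fin.cons y s : Fin (N + 1) → O p) ∘ Fin.succ = s := by
        ext j; simp
      rwa [h2] at h1
    have hps : ∀ i, v p (((pmap f' s i : O p) : AlgebraicClosure ℚ) - (pmap f' s' i : O p)) < ε := by
      intro i
      have h1 := h i.succ
      rwa [pmap_cons hf', pmap_cons hf', Fin.cons_succ, Fin.cons_succ] at h1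
    have hs : ∀ i, v p ((s i : AlgebraicClosure ℚ) - s' i) < ε := ih f' hf'tri s s' ε hε hs1 hds hps
    have hy : v p ((y : AlgebraicClosure ℚ) - y') < ε := by
      apply close_of_eval p ((finSuccEquiv (O p) N (f 0)).map (eval s)) y y' hy1
      · have h1 := hd 0
        rwa [eval_pderiv_zero] at h1
      · have h1 := h 0
        rw [pmap_cons hf', pmap_cons hf', Fin.cons_zero, Fin.cons_zero] at h1
        have h2 : v p ((((finSuccEquiv (O p) N (f 0)).map (eval s')).eval y' : O p) -
            (((finSuccEquiv (O p) N (f 0)).map (eval s)).eval y' : O p) : AlgebraicClosure ℚ) < ε := by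
          rw [← eval_eq_eval_mv_eval', ← eval_eq_eval_mv_eval']
          apply close_eval p (f 0) _ _ hε
          intro i
          refine Fin.cases ?_ (fun j => ?_) i
          · simpa using hε
          · simp only [Fin.cons_succ]
            rw [v_sub_comm]
            exact hs j
        have h3 := v_add_lt p h1 h2
        rwa [sub_add_sub_cancel] at h3
    intro i
    refine Fin.cases ?_ (fun j => ?_) i
    · simpa using hy
    · simpa using hs j

end

end Pool.Agent.H12.ZD
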