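import Pool.Agent.H12.ZD.Eps

/-!
# Dense orbits near prescribed points that avoid a given hypersurface
-/

open MvPolynomial IsLocalRing

namespace Pool.Agent.H12.ZD

/-- Dense orbits can be found near prescribed points at finitely many primes, inside the complement
of any given hypersurface. -/
theorem exists_dense_near_avoid (N : ℕ) (f : Fin N → MvPolynomial (Fin N) (AlgebraicClosure ℚ))
    (hf : Tri f)
    (hinj : Function.Injective (aeval f : MvPolynomial (Fin N) (AlgebraicClosure ℚ) → _))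
    (hinv : NoInv f) (b : MvPolynomial (Fin N) (AlgebraicClosure ℚ)) (hb : b ≠ 0)
    (T : Finset Nat.Primes) (t : Nat.Primes → Fin N → (AlgebraicClosure ℚ))
    {ε : ℝ} (hε : 0 < ε) :
    ∃ x : Fin N → (AlgebraicClosure ℚ), (∀ p ∈ T, ∀ i, v p (x i - t p i) < ε) ∧ DenseOrbit f x ∧
      ∀ n, eval ((pmap f)^[n] x) b ≠ 0 := by
  classical
  have hdeg := degree_pos N f hf hinj
  obtain ⟨M₁, h₁⟩ := exists_goodCycle f hf hdeg b hb
  obtain ⟨M₂, h₂⟩ := exists_bound_system f
  obtain ⟨M₃, h₃⟩ := exists_bound_lift b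
  obtain ⟨p, hp1, hp2, hp3, hpT⟩ : ∃ p : Nat.Primes, M₁ < p ∧ M₂ < p ∧ M₃ < p ∧ p ∉ T := by
    obtain ⟨q, hq, hqp⟩ := Nat.exists_infinite_primes
      (max (max M₁ (max M₂ M₃)) (T.sup fun p => (p : ℕ)) + 1)
    have h3 := le_max_left (max M₁ (max M₂ M₃)) (T.sup fun p => (p : ℕ))
    have h4 := le_max_right (max M₁ (max M₂ M₃)) (T.sup fun p => (p : ℕ))
    have h5 := le_max_left M₁ (max M₂ M₃)
    have h6 := le_max_right M₁ (max M₂ M₃)
    have h8 := le_max_left M₂ M₃
    have h9 := le_max_right M₂ M₃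
    refine ⟨⟨q, hqp⟩, ?_, ?_, ?_, ?_⟩
    · change M₁ < q
      omega
    · change M₂ < q
      omega
    · change M₃ < q
      omega
    · intro hmem
      have h7 : q ≤ T.sup fun p => (p : ℕ) :=
        Finset.le_sup (f := fun p : Nat.Primes => (p : ℕ)) hmem
      omega
  obtain ⟨f₀, hf₀⟩ := h₂ p hp2
  obtain ⟨b₀, hb₀, -⟩ := h₃ p hp3
  obtain ⟨zb, r, hcyc⟩ := h₁ p hp1 f₀ hf₀ b₀ hb₀
  choose tz htz using fun i => residue_surjective p (zb i)
  obtain ⟨s, hsT, hsd⟩ := exists_dense_near_eps (lt_min hε one_pos) (min_le_right ε 1) N f hf hdeg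
    hinj hinv (insert p T)
    (fun q => if q = p then fun i => (tz i : AlgebraicClosure ℚ) else fun i => t q i)
  have hsp : ∀ i, v p (s i - tz i) < 1 := by
    intro i
    have h3 := hsT p (Finset.mem_insert_self p T) i
    rw [if_pos rfl] at h3
    exact h3.trans_le (min_le_right ε 1)
  have hsT' : ∀ q ∈ T, ∀ i, v q (s i - t q i) < ε := by
    intro q hq i
    have h3 := hsT q (Finset.mem_insert_of_mem hq) i
    rw [if_neg (fun h : q = p => hpT (h ▸ hq))] at h3
    exact h3.trans_le (min_le_left ε 1)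
  have hsO : ∀ i, s i ∈ O p := by
    intro i
    rw [mem_O]
    have h3 : s i = (s i - tz i) + tz i := by ring
    rw [h3]
    exact v_add_le' p (hsp i).le (tz i).2
  obtain ⟨z, hz⟩ : ∃ z : Fin N → O p, (fun i => (z i : AlgebraicClosure ℚ)) = s :=
    ⟨fun i => ⟨s i, hsO i⟩, rfl⟩
  have hzres : (fun i => residue (O p) (z i)) = zb := by
    funext i
    rw [← htz i, residue_eq]
    have h3 := hsp i
    rw [← hz] at h3
    exact h3
  rw [← hzres] at hcyc
  refine ⟨s, hsT', hsd, ?_⟩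
  intro n h0
  have h3 := hcyc.val_eq n
  have h4 : eval ((pmap f)^[n] s) b =
      ((eval ((pmap f₀)^[n] z) b₀ : O p) : AlgebraicClosure ℚ) := by
    rw [← hz, ← hf₀]
    have h5 := pmap_iterate_map (O p).subtype f₀ z n
    have h6 : (fun i => (O p).subtype (z i)) = fun i => (z i : AlgebraicClosure ℚ) := rfl
    rw [h6] at h5
    rw [h5, ← hb₀, eval_map]
    exact (eval₂_comp (O p).subtype ((pmap f₀)^[n] z) b₀).symm
  rw [← h4, h0, v_zero] at h3
  exact zero_ne_one h3

end Pool.Agent.H12.ZD
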