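import Pool.Agent.H12.ZD.Main
import Mathlib.RingTheory.AlgebraicIndependent.TranscendenceBasis

/-!
# The fibre degrees of a dominant triangular map are positive
-/

open MvPolynomial

namespace Pool.Agent.H12.ZD

theorem degree_pos {k : Type} [Field k] : ∀ (N : ℕ) (f : Fin N → MvPolynomial (Fin N) k), Tri f →
    Function.Injective (aeval f : MvPolynomial (Fin N) k → _) → ∀ i, 1 ≤ (f i).degreeOf i := by
  classical
  intro N
  induction N with
  | zero => intro f _ _ i; exact i.elim0
  | succ N ih =>
    intro f hf hinj i
    obtain ⟨f', hf'tri, hf'⟩ := hf.exists_tail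
    refine Fin.cases ?_ (fun i => ?_) i
    · by_contra hlt
      have h0 : (f 0).degreeOf 0 = 0 := by omega
      have hvars : (0 : Fin (N + 1)) ∉ (f 0).vars := by
        rw [vars_def, Multiset.mem_toFinset, ← Multiset.count_eq_zero]
        rw [degreeOf_def] at h0
        convert h0
      obtain ⟨g₀, hg₀⟩ := exists_rename_eq_of_vars_subset_range (f 0) _ (Fin.succ_injective N)
        (by
          intro j hj
          rw [Set.mem_range]
          refine ⟨j.pred ?_, Fin.succ_pred _ _⟩
          intro h1
          rw [h1] at hj
          exact hvars hj)
      set g : Fin (N + 1) → MvPolynomial (Fin N) k := Fin.cons g₀ f' with hg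
      have hgf : ∀ i, rename Fin.succ (g i) = f i := by
        intro i
        refine Fin.cases ?_ (fun i => ?_) i
        · rw [hg, Fin.cons_zero, hg₀]
        · rw [hg, Fin.cons_succ, hf']
      have hcomp : (aeval f : MvPolynomial (Fin (N + 1)) k →ₐ[k] _) =
          (rename Fin.succ).comp (aeval g) := by
        apply algHom_ext
        intro i
        rw [AlgHom.comp_apply, aeval_X, aeval_X, hgf]
      have hind : AlgebraicIndependent k g := by
        rw [AlgebraicIndependent]
        intro a b hab
        apply hinj
        have h1 : ∀ c, aeval f c = rename Fin.succ (aeval g c) := fun c => by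
          rw [hcomp]; rfl
        change aeval f a = aeval f b
        rw [h1, h1]
        exact congrArg _ hab
      have h2 := hind.cardinalMk_le_trdeg
      rw [MvPolynomial.trdeg_of_isDomain, Cardinal.lift_id, Cardinal.mk_fin, Cardinal.mk_fin,
        Nat.cast_le] at h2
      omega
    · rw [← degreeOf_tail hf' i]
      exact ih f' hf'tri (injective_tail hf' hinj) i

end Pool.Agent.H12.ZD
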