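import Pool.Agent.H12.ZD.DegPos

/-!
# Dense orbits of triangular maps near prescribed points, with any precision
-/

open MvPolynomial IsLocalRing

namespace Pool.Agent.H12.ZD

/-- a product of high powers of the primes in `T` is small at all of them -/
theorem exists_small (T : Finset Nat.Primes) {ε : ℝ} (hε : 0 < ε) :
    ∃ m : ℕ, ∀ p ∈ T, v p (((∏ q ∈ T, (q : ℕ) ^ m : ℕ) : ℕ) : AlgebraicClosure ℚ) < ε := by
  classical
  have h1 : ∀ p : Nat.Primes, ∃ m : ℕ, ∀ n ≥ m, (v p ((p : ℕ) : AlgebraicClosure ℚ)) ^ n < ε := by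
    intro p
    exact Filter.eventually_atTop.mp
      ((tendsto_pow_atTop_nhds_zero_of_lt_one (v_nonneg p _) (v_self_lt p)).eventually_lt_const hε)
  choose M hM using h1
  refine ⟨T.sup M, fun p hp => ?_⟩
  have h2 : (p : ℕ) ^ (T.sup M) ∣ ∏ q ∈ T, (q : ℕ) ^ (T.sup M) :=
    Finset.dvd_prod_of_mem (fun q : Nat.Primes => (q : ℕ) ^ (T.sup M)) hp
  obtain ⟨c, hc⟩ := h2
  rw [hc, Nat.cast_mul, Nat.cast_pow, v_mul, v_pow]
  calc v p ((p : ℕ) : AlgebraicClosure ℚ) ^ (T.sup M) * v p (c : AlgebraicClosure ℚ)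
      ≤ v p ((p : ℕ) : AlgebraicClosure ℚ) ^ (T.sup M) * 1 :=
        mul_le_mul_of_nonneg_left (v_natCast_le p c) (pow_nonneg (v_nonneg p _) _)
    _ < ε := by rw [mul_one]; exact hM p _ (Finset.le_sup hp)

/-- Simultaneous approximation at finitely many places, with any precision. -/
theorem exists_approx_eps (T : Finset Nat.Primes) (t : Nat.Primes → (AlgebraicClosure ℚ)) {ε : ℝ}
    (hε : 0 < ε) : ∃ y : (AlgebraicClosure ℚ), ∀ p ∈ T, v p (y - t p) < ε := by
  classical
  obtain ⟨m, hm⟩ := exists_small T hε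
  set D : ℕ := ∏ q ∈ T, (q : ℕ) ^ m with hD
  have hD0 : (D : AlgebraicClosure ℚ) ≠ 0 := by
    rw [Nat.cast_ne_zero]
    exact Finset.prod_ne_zero_iff.mpr fun q _ => pow_ne_zero _ q.2.ne_zero
  obtain ⟨y, hy⟩ := exists_approx T (fun q => t q / D)
  refine ⟨D * y, fun p hp => ?_⟩
  have h1 : (D : AlgebraicClosure ℚ) * y - t p = D * (y - t p / D) := by
    field_simp
  rw [h1, v_mul]
  have h2 := hm p hp
  have h3 := hy p hp
  calc v p (D : AlgebraicClosure ℚ) * v p (y - t p / D) ≤ v p (D : AlgebraicClosure ℚ) * 1 :=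
        mul_le_mul_of_nonneg_left h3.le (v_nonneg p _)
    _ < ε := by rw [mul_one]; exact h2

/-- Points with a dense orbit can be found in any finite product of open balls. -/
theorem exists_dense_near_eps {ε : ℝ} (hε : 0 < ε) (hε1 : ε ≤ 1) : ∀ (N : ℕ) (f : Fin N → MvPolynomial (Fin N) (AlgebraicClosure ℚ)), Tri f →
    (∀ i, 1 ≤ (f i).degreeOf i) → Function.Injective (aeval f : MvPolynomial (Fin N) (AlgebraicClosure ℚ) → _) →
    NoInv f → ∀ (T : Finset Nat.Primes) (t : Nat.Primes → Fin N → (AlgebraicClosure ℚ)),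
    ∃ x : Fin N → (AlgebraicClosure ℚ), (∀ p ∈ T, ∀ i, v p (x i - t p i) < ε) ∧ DenseOrbit f x := by
  classical
  intro N
  induction N with
  | zero =>
    intro f _ _ _ _ T t
    refine ⟨fun i => i.elim0, fun p _ i => i.elim0, ?_⟩
    intro h hh
    have h0 := hh 0
    rw [eq_C_of_isEmpty h] at h0 ⊢
    rw [eval_C] at h0
    rw [h0, map_zero]
  | succ N ih =>
    intro f hf hdeg hinj hinv T t
    obtain ⟨f', hf'tri, hf'⟩ := hf.exists_tail
    have hdeg' : ∀ i, 1 ≤ (f' i).degreeOf i := fun i => by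
      rw [degreeOf_tail hf' i]
      exact hdeg i.succ
    have hinj' := injective_tail hf' hinj
    have hinv' := hinv.tail hf'
    set F := finSuccEquiv (AlgebraicClosure ℚ) N (f 0) with hF
    have hFdeg : 1 ≤ F.natDegree := by
      rw [hF, natDegree_finSuccEquiv]
      exact hdeg 0
    have hF0 : F ≠ 0 := by
      intro h0
      rw [h0, Polynomial.natDegree_zero] at hFdeg
      omega
    obtain ⟨M₁, h₁⟩ := exists_goodCycle f' hf'tri hdeg' F.leadingCoeff
      (Polynomial.leadingCoeff_ne_zero.mpr hF0)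
    obtain ⟨M₂, h₂⟩ := exists_bound_system f
    -- choose the prime
    obtain ⟨p, hp1, hp2, hpT⟩ : ∃ p : Nat.Primes, M₁ < p ∧ M₂ < p ∧ p ∉ T := by
      obtain ⟨q, hq, hqp⟩ := Nat.exists_infinite_primes
        (max (max M₁ M₂) (T.sup fun p => (p : ℕ)) + 1)
      have h3 := le_max_left (max M₁ M₂) (T.sup fun p => (p : ℕ))
      have h4 := le_max_right (max M₁ M₂) (T.sup fun p => (p : ℕ))
      have h5 := le_max_left M₁ M₂
      have h6 := le_max_right M₁ M₂
      refine ⟨⟨q, hqp⟩, ?_, ?_, ?_⟩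
      · change M₁ < q
        omega
      · change M₂ < q
        omega
      · intro hmem
        have h7 : q ≤ T.sup fun p => (p : ℕ) :=
          Finset.le_sup (f := fun p : Nat.Primes => (p : ℕ)) hmem
        omega
    obtain ⟨f₀, hf₀⟩ := h₂ p hp2
    have hf₀tri : Tri f₀ := by
      apply Tri.of_map (O p).subtype (O p).subtype_injective
      rw [hf₀]
      exact hf
    obtain ⟨f₀', hf₀'tri, hf₀'⟩ := hf₀tri.exists_tail
    have hf'₀ : (fun i => map (O p).subtype (f₀' i)) = f' := by
      ext1 i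
      apply rename_injective (R := (AlgebraicClosure ℚ)) _ (Fin.succ_injective N)
      rw [hf' i, ← map_rename, hf₀' i, ← hf₀]
    set F₀ := finSuccEquiv (O p) N (f₀ 0) with hF₀
    have hmapinj : Function.Injective (map (O p).subtype : MvPolynomial (Fin N) (O p) → _) :=
      map_injective _ (O p).subtype_injective
    have hFF₀ : F = F₀.map (map (O p).subtype) := by
      rw [hF, ← hf₀, hF₀, ← finSuccEquiv_map]
    have hlc : map (O p).subtype F₀.leadingCoeff = F.leadingCoeff := by
      rw [hFF₀, Polynomial.leadingCoeff_map_of_injective hmapinj]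
    have hnd : F₀.natDegree = F.natDegree := by
      rw [hFF₀, Polynomial.natDegree_map_eq_of_injective hmapinj]
    obtain ⟨zb, r, hcyc⟩ := h₁ p hp1 f₀' hf'₀ F₀.leadingCoeff hlc
    -- targets
    choose tz htz using fun i => residue_surjective p (zb i)
    obtain ⟨s, hsT, hsd⟩ := ih f' hf'tri hdeg' hinj' hinv' (insert p T)
      (fun q => if q = p then fun i => (tz i : AlgebraicClosure ℚ) else fun i => t q i.succ)
    have hsp : ∀ i, v p (s i - tz i) < 1 := by
      intro i
      have h3 := hsT p (Finset.mem_insert_self p T) i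
      rw [if_pos rfl] at h3
      exact h3.trans_le hε1
    have hsT' : ∀ q ∈ T, ∀ i, v q (s i - t q i.succ) < ε := by
      intro q hq i
      have h3 := hsT q (Finset.mem_insert_of_mem hq) i
      rwa [if_neg (fun h : q = p => hpT (h ▸ hq))] at h3
    have hsO : ∀ i, s i ∈ O p := by
      intro i
      rw [mem_O]
      have h3 : s i = (s i - tz i) + tz i := by ring
      rw [h3]
      exact v_add_le' p (hsp i).le (tz i).2
    obtain ⟨z, hz⟩ : ∃ z : Fin N → O p, (fun i => (z i : AlgebraicClosure ℚ)) = s :=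
      ⟨fun i => ⟨s i, hsO i⟩, rfl⟩
    have hzres : (fun i => residue (O p) (z i)) = zb := by
      funext i
      rw [← htz i, residue_eq]
      have h3 := hsp i
      rw [← hz] at h3
      exact h3
    rw [← hzres] at hcyc
    -- the first coordinate
    have hcons : ∀ (y : AlgebraicClosure ℚ), (∀ q ∈ T, v q (y - t q 0) < ε) →
        ∀ q ∈ T, ∀ i, v q ((Fin.cons y s : Fin (N + 1) → (AlgebraicClosure ℚ)) i - t q i) < ε := by
      intro y hy q hq i
      refine Fin.cases ?_ (fun i => ?_) i
      · exact hy q hq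
      · exact hsT' q hq i
    rcases Nat.lt_or_ge 1 F.natDegree with hd | hd
    · -- degree at least two
      obtain ⟨y, hy⟩ := exists_approx_eps (insert p T)
        (fun q => if q = p then (((p : ℕ) : AlgebraicClosure ℚ))⁻¹ else t q 0) hε
      have hyT : ∀ q ∈ T, v q (y - t q 0) < ε := by
        intro q hq
        have h3 := hy q (Finset.mem_insert_of_mem hq)
        rwa [if_neg (fun h : q = p => hpT (h ▸ hq))] at h3
      have hyp : 1 < v p y := by
        have h3 := hy p (Finset.mem_insert_self p T)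
        rw [if_pos rfl] at h3
        have h4 : 1 < v p (((p : ℕ) : AlgebraicClosure ℚ)⁻¹) := by
          rw [v_inv, v_self, inv_inv]
          exact_mod_cast p.2.one_lt
        have h5 : v p y = v p (((p : ℕ) : AlgebraicClosure ℚ)⁻¹) := v_eq_of_sub_lt p ((h3.trans_le hε1).trans h4)
        rw [h5]
        exact h4
      refine ⟨Fin.cons y s, hcons y hyT, ?_⟩
      rw [← hz] at hsd ⊢
      exact dense_of_growth hf' hf₀' hf₀ hf₀'tri (by rw [← hF₀, hnd]; exact hd) hcyc hsd hyp
    · -- degree one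
      obtain ⟨y₀, hy₀⟩ := exists_approx_eps T (fun q => t q 0) hε
      obtain ⟨m, hm⟩ := exists_small T hε
      have hα : ∀ n, eval ((pmap f')^[n] s) F.leadingCoeff ≠ 0 := by
        intro n h0
        have h3 := hcyc.val_eq n
        have h4 : eval ((pmap f')^[n] s) F.leadingCoeff =
            ((eval ((pmap f₀')^[n] z) F₀.leadingCoeff : O p) : AlgebraicClosure ℚ) := by
          rw [← hz, ← hf'₀]
          have h5 := pmap_iterate_map (O p).subtype f₀' z n
          have h6 : (fun i => (O p).subtype (z i)) = fun i => (z i : AlgebraicClosure ℚ) := rfl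
          rw [h6] at h5
          rw [h5, ← hlc, eval_map]
          exact (eval₂_comp (O p).subtype ((pmap f₀')^[n] z) F₀.leadingCoeff).symm
        rw [← h4, h0, v_zero] at h3
        exact zero_ne_one h3
      set D : ℕ := ∏ q ∈ T, (q : ℕ) ^ m with hD
      have hD0 : D ≠ 0 := Finset.prod_ne_zero_iff.mpr fun q _ => pow_ne_zero _ q.2.ne_zero
      obtain ⟨j, hj⟩ := exists_dense_of_affine hf' hinv hinj'
        (by rw [← hF]; exact le_antisymm hd hFdeg) hsd hα
        (fun j : ℕ => y₀ + ((j * D : ℕ) : AlgebraicClosure ℚ)) (by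
          intro a b hab
          have h3 : ((a * D : ℕ) : AlgebraicClosure ℚ) = ((b * D : ℕ) : AlgebraicClosure ℚ) := add_left_cancel hab
          have h4 : a * D = b * D := by exact_mod_cast h3
          exact Nat.eq_of_mul_eq_mul_right (Nat.pos_of_ne_zero hD0) h4)
      refine ⟨_, hcons _ ?_, hj⟩
      intro q hq
      have h3 : y₀ + ((j * D : ℕ) : AlgebraicClosure ℚ) - t q 0 = (y₀ - t q 0) + ((j * D : ℕ) : AlgebraicClosure ℚ) := by ring
      rw [h3]
      apply v_add_lt q (hy₀ q hq)
      rw [Nat.cast_mul, v_mul]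
      calc v q (j : AlgebraicClosure ℚ) * v q (D : AlgebraicClosure ℚ)
          ≤ 1 * v q (D : AlgebraicClosure ℚ) :=
            mul_le_mul_of_nonneg_right (v_natCast_le q j) (v_nonneg q _)
        _ < ε := by rw [one_mul]; exact hm q hq

end Pool.Agent.H12.ZD
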