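import Pool.Agent.H12.ZD.Eps
import Mathlib.RingTheory.MvPolynomial.MonomialOrder
import Mathlib.Data.Finsupp.MonomialOrder

/-!
# Invariants of twisted monomial maps

`L` is a field with an endomorphism `σ`; on `L[v_0, …, v_{N-1}]` consider the endomorphism `Φ`
which is `σ` on `L` and maps `v_i` to `q_i ∏_{j ≥ i} v_j ^ M`, with `M ≥ 2`. A quotient `a / b`
which is fixed by `Φ` is a constant fixed by `σ`.
-/

open MvPolynomial

namespace Pool.Agent.H12.ZD

variable {L : Type*} [Field L] {N : ℕ}

/-- the exponent map -/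
noncomputable def expo (M : ℕ) (m : Fin N →₀ ℕ) : Fin N →₀ ℕ :=
  Finsupp.equivFunOnFinite.symm fun j => M * ∑ i ∈ Finset.univ.filter (· ≤ j), m i

theorem expo_apply (M : ℕ) (m : Fin N →₀ ℕ) (j : Fin N) :
    expo M m j = M * ∑ i ∈ Finset.univ.filter (· ≤ j), m i := rfl

theorem expo_add (M : ℕ) (m n : Fin N →₀ ℕ) : expo M (m + n) = expo M m + expo M n := by
  ext j
  rw [Finsupp.add_apply, expo_apply, expo_apply, expo_apply, ← mul_add, ← Finset.sum_add_distrib]
  rfl

theorem expo_nsmul (M : ℕ) (n : ℕ) (m : Fin N →₀ ℕ) : expo M (n • m) = n • expo M m := by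
  induction n with
  | zero =>
    have : expo M (0 : Fin N →₀ ℕ) = 0 := by
      ext j
      rw [expo_apply]
      simp
    rw [zero_smul, zero_smul, this]
  | succ n ih => rw [succ_nsmul, succ_nsmul, expo_add, ih]

theorem filter_le_eq (j : Fin N) : (Finset.univ.filter (· ≤ j) : Finset (Fin N)) =
    insert j (Finset.univ.filter (· < j)) := by
  ext i
  simp only [Finset.mem_filter, Finset.mem_univ, true_and, Finset.mem_insert]
  exact le_iff_eq_or_lt

theorem expo_strictMono {M : ℕ} (hM : 1 ≤ M) {m n : Fin N →₀ ℕ} (h : toLex m < toLex n) :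
    toLex (expo M m) < toLex (expo M n) := by
  rw [Finsupp.Lex.lt_iff] at h ⊢
  obtain ⟨j, hj, hlt⟩ := h
  have hj' : ∀ i < j, m i = n i := fun i hi => hj i hi
  refine ⟨j, ?_, ?_⟩
  · intro i hi
    change expo M m i = expo M n i
    rw [expo_apply, expo_apply]
    congr 1
    apply Finset.sum_congr rfl
    intro l hl
    rw [Finset.mem_filter] at hl
    exact hj' l (hl.2.trans_lt hi)
  · change expo M m j < expo M n j
    rw [expo_apply, expo_apply]
    apply Nat.mul_lt_mul_of_pos_left _ (by omega)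
    rw [filter_le_eq, Finset.sum_insert (by simp), Finset.sum_insert (by simp)]
    apply add_lt_add_of_lt_of_le hlt
    apply le_of_eq
    apply Finset.sum_congr rfl
    intro l hl
    rw [Finset.mem_filter] at hl
    exact hj' l hl.2

theorem expo_injective {M : ℕ} (hM : 1 ≤ M) : Function.Injective (expo M : (Fin N →₀ ℕ) → _) := by
  intro m n h
  rcases lt_trichotomy (toLex m) (toLex n) with h1 | h1 | h1
  · have := expo_strictMono hM h1
    rw [h] at this
    exact absurd this (lt_irrefl _)
  · exact toLex.injective h1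
  · have := expo_strictMono hM h1
    rw [h] at this
    exact absurd this (lt_irrefl _)

/-- `expo M - id` is injective -/
theorem expo_sub_injective {M : ℕ} (hM : 2 ≤ M) {m n : Fin N →₀ ℕ}
    (h : expo M m + n = expo M n + m) : m = n := by
  have key : ∀ j : ℕ, ∀ hj : j < N, m ⟨j, hj⟩ = n ⟨j, hj⟩ := by
    intro j
    induction j using Nat.strong_induction_on with
    | _ j ih =>
      intro hj
      have h1 := DFunLike.congr_fun h ⟨j, hj⟩
      rw [Finsupp.add_apply, Finsupp.add_apply, expo_apply, expo_apply, filter_le_eq,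
        Finset.sum_insert (by simp), Finset.sum_insert (by simp)] at h1
      have h2 : ∑ i ∈ Finset.univ.filter (· < (⟨j, hj⟩ : Fin N)), m i =
          ∑ i ∈ Finset.univ.filter (· < (⟨j, hj⟩ : Fin N)), n i := by
        apply Finset.sum_congr rfl
        intro l hl
        rw [Finset.mem_filter] at hl
        exact ih l.1 (Fin.lt_def.mp hl.2) l.2
      rw [h2] at h1
      have h3 : M * m ⟨j, hj⟩ + n ⟨j, hj⟩ = M * n ⟨j, hj⟩ + m ⟨j, hj⟩ := by
        have h4 := h1
        rw [mul_add, mul_add] at h4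
        omega
      obtain ⟨M', rfl⟩ := Nat.exists_eq_add_of_le hM
      have h5 : (1 + M') * m ⟨j, hj⟩ = (1 + M') * n ⟨j, hj⟩ := by
        have h6 : (2 + M') * m ⟨j, hj⟩ = (1 + M') * m ⟨j, hj⟩ + m ⟨j, hj⟩ := by ring
        have h7 : (2 + M') * n ⟨j, hj⟩ = (1 + M') * n ⟨j, hj⟩ + n ⟨j, hj⟩ := by ring
        rw [h6, h7] at h3
        omega
      exact Nat.eq_of_mul_eq_mul_left (by omega) h5
  ext j
  exact key j.1 j.2

/-- the twisted monomial endomorphism -/
noncomputable def tw (σ : L →+* L) (q : Fin N → L) (M : ℕ) :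
    MvPolynomial (Fin N) L →+* MvPolynomial (Fin N) L :=
  eval₂Hom (C.comp σ) fun i => C (q i) * ∏ j ∈ Finset.univ.filter (i ≤ ·), X j ^ M

theorem tw_C (σ : L →+* L) (q : Fin N → L) (M : ℕ) (c : L) : tw σ q M (C c) = C (σ c) := by
  rw [tw, coe_eval₂Hom, eval₂_C]; rfl

theorem tw_X (σ : L →+* L) (q : Fin N → L) (M : ℕ) (i : Fin N) :
    tw σ q M (X i) = C (q i) * ∏ j ∈ Finset.univ.filter (i ≤ ·), X j ^ M := by
  rw [tw, coe_eval₂Hom, eval₂_X]

theorem prod_X_pow (M : ℕ) (i : Fin N) :
    (∏ j ∈ Finset.univ.filter (i ≤ ·), X j ^ M : MvPolynomial (Fin N) L) =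
      monomial (expo M (Finsupp.single i 1)) 1 := by
  rw [monomial_eq, map_one, one_mul, Finsupp.prod_fintype _ _ (fun _ => pow_zero _),
    Finset.prod_filter]
  apply Finset.prod_congr rfl
  intro j _
  rw [expo_apply]
  have h1 : ∑ l ∈ Finset.univ.filter (· ≤ j), (Finsupp.single i 1 : Fin N →₀ ℕ) l =
      if i ≤ j then 1 else 0 := by
    simp only [Finsupp.single_apply]
    rw [Finset.sum_filter]
    have : ∀ l : Fin N, (if l ≤ j then (if i = l then 1 else 0) else 0 : ℕ) =
        if i = l then (if i ≤ j then 1 else 0) else 0 := by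
      intro l
      by_cases h : i = l
      · subst h; simp
      · simp [h]
    simp only [this]
    rw [Finset.sum_ite_eq]
    simp
  rw [h1]
  split_ifs <;> simp

theorem tw_monomial (σ : L →+* L) (q : Fin N → L) (M : ℕ) (m : Fin N →₀ ℕ) (c : L) :
    tw σ q M (monomial m c) = monomial (expo M m) (σ c * ∏ i, q i ^ m i) := by
  classical
  have key : ∀ m : Fin N →₀ ℕ, tw σ q M (monomial m 1) = monomial (expo M m) (∏ i, q i ^ m i) := by
    intro m
    induction m using Finsupp.induction_linear with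
    | zero =>
      have : expo M (0 : Fin N →₀ ℕ) = 0 := by
        ext j
        rw [expo_apply]
        simp
      rw [this]
      simp
    | add m n hm hn =>
      have h1 : (monomial (m + n) (1 : L)) = monomial m 1 * monomial n 1 := by
        rw [monomial_mul, one_mul]
      rw [h1, map_mul, hm, hn, monomial_mul, expo_add]
      congr 1
      rw [← Finset.prod_mul_distrib]
      apply Finset.prod_congr rfl
      intro i _
      rw [Finsupp.add_apply, pow_add]
    | single i n =>
      have h1 : (monomial (Finsupp.single i n) (1 : L)) = X i ^ n := by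
        rw [X_pow_eq_monomial]
      have h2 : expo M (Finsupp.single i n) = n • expo M (Finsupp.single i 1) := by
        rw [← expo_nsmul, Finsupp.smul_single, smul_eq_mul, mul_one]
      rw [h1, map_pow, tw_X, prod_X_pow, C_mul_monomial, mul_one, monomial_pow, h2]
      congr 1
      rw [Finset.prod_eq_single i]
      · simp
      · intro j _ hj
        rw [Finsupp.single_apply, if_neg (Ne.symm hj), pow_zero]
      · simp
  have h1 : monomial m c = C c * monomial m 1 := by rw [C_mul_monomial, mul_one]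
  rw [h1, map_mul, tw_C, key, C_mul_monomial]

theorem coeff_tw {σ : L →+* L} {q : Fin N → L} {M : ℕ} (hM : 1 ≤ M) (a : MvPolynomial (Fin N) L)
    (m : Fin N →₀ ℕ) : coeff (expo M m) (tw σ q M a) = σ (coeff m a) * ∏ i, q i ^ m i := by
  classical
  induction a using MvPolynomial.induction_on' with
  | monomial n c =>
    rw [tw_monomial, coeff_monomial, coeff_monomial]
    by_cases h : n = m
    · subst h; simp
    · rw [if_neg (fun h' => h (expo_injective hM h')), if_neg h, map_zero, zero_mul]
  | add a b ha hb => rw [map_add, coeff_add, coeff_add, ha, hb, map_add, add_mul]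

theorem exists_of_coeff_tw {σ : L →+* L} {q : Fin N → L} {M : ℕ} (a : MvPolynomial (Fin N) L)
    (d : Fin N →₀ ℕ) (h : coeff d (tw σ q M a) ≠ 0) : ∃ m ∈ a.support, d = expo M m := by
  classical
  rw [← support_sum_monomial_coeff a, map_sum, coeff_sum] at h
  obtain ⟨m, hm, hne⟩ := Finset.exists_ne_zero_of_sum_ne_zero h
  refine ⟨m, hm, ?_⟩
  rw [tw_monomial, coeff_monomial] at hne
  by_contra hd
  rw [if_neg (Ne.symm hd)] at hne
  exact hne rfl

variable {σ : L →+* L} {q : Fin N → L} {M : ℕ}

theorem prod_pow_ne_zero (hq : ∀ i, q i ≠ 0) (m : Fin N →₀ ℕ) : ∏ i, q i ^ m i ≠ 0 :=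
  Finset.prod_ne_zero_iff.mpr fun i _ => pow_ne_zero _ (hq i)

theorem tw_injective (hM : 1 ≤ M) (hq : ∀ i, q i ≠ 0) : Function.Injective (tw σ q M) := by
  rw [injective_iff_map_eq_zero]
  intro a ha
  ext m
  have h1 := coeff_tw hM (σ := σ) (q := q) a m
  rw [ha, coeff_zero] at h1
  rcases mul_eq_zero.mp h1.symm with h2 | h2
  · rw [coeff_zero]
    exact σ.injective (by rw [h2, map_zero])
  · exact absurd h2 (prod_pow_ne_zero hq m)

open MonomialOrder in
theorem degree_tw (hM : 1 ≤ M) (hq : ∀ i, q i ≠ 0) {a : MvPolynomial (Fin N) L} (ha : a ≠ 0) :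
    lex.degree (tw σ q M a) = expo M (lex.degree a) := by
  have h1 : coeff (expo M (lex.degree a)) (tw σ q M a) ≠ 0 := by
    rw [coeff_tw hM]
    refine mul_ne_zero ?_ (prod_pow_ne_zero hq _)
    rw [Ne, map_eq_zero]
    exact lex.coeff_degree_ne_zero_iff.mpr ha
  have h2 : tw σ q M a ≠ 0 := by
    intro h0
    rw [h0, coeff_zero] at h1
    exact h1 rfl
  apply lex.toSyn.injective
  apply le_antisymm
  · obtain ⟨m, hm, hd⟩ := exists_of_coeff_tw a _ (lex.coeff_degree_ne_zero_iff.mpr h2)
    rw [hd]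
    have h3 := lex.le_degree hm
    rcases h3.eq_or_lt with h4 | h4
    · rw [lex.toSyn.injective h4]
    · exact (expo_strictMono hM h4).le
  · exact lex.le_degree (mem_support_iff.mpr h1)

open MonomialOrder in
theorem leadingCoeff_tw (hM : 1 ≤ M) (hq : ∀ i, q i ≠ 0) {a : MvPolynomial (Fin N) L}
    (ha : a ≠ 0) : lex.leadingCoeff (tw σ q M a) =
      σ (lex.leadingCoeff a) * ∏ i, q i ^ (lex.degree a i) := by
  rw [MonomialOrder.leadingCoeff, degree_tw hM hq ha, coeff_tw hM]
  rfl

open MonomialOrder in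
theorem degree_eq_of_inv (hM : 2 ≤ M) (hq : ∀ i, q i ≠ 0) {a b : MvPolynomial (Fin N) L}
    (ha : a ≠ 0) (hb : b ≠ 0) (h : tw σ q M a * b = tw σ q M b * a) :
    lex.degree a = lex.degree b := by
  have hM1 : 1 ≤ M := by omega
  have hta : tw σ q M a ≠ 0 := fun h0 => ha (tw_injective hM1 hq (by rw [h0, map_zero]))
  have htb : tw σ q M b ≠ 0 := fun h0 => hb (tw_injective hM1 hq (by rw [h0, map_zero]))
  have h1 := congrArg lex.degree h
  rw [lex.degree_mul hta hb, lex.degree_mul htb ha, degree_tw hM1 hq ha, degree_tw hM1 hq hb] at h1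
  exact expo_sub_injective hM h1

open MonomialOrder in
/-- A quotient `a / b` fixed by the twisted monomial endomorphism is a constant in `k`, if the
elements of `L` fixed by `σ` are in `k`. -/
theorem exists_const_of_inv {k : Type*} [Field k] [Algebra k L] (hσk : ∀ c : k, σ (algebraMap k L c) = algebraMap k L c)
    (hfix : ∀ x : L, σ x = x → ∃ c : k, x = algebraMap k L c)
    (hM : 2 ≤ M) (hq : ∀ i, q i ≠ 0) {a b : MvPolynomial (Fin N) L}
    (hb : b ≠ 0) (h : tw σ q M a * b = tw σ q M b * a) :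
    ∃ c : k, a = C (algebraMap k L c) * b := by
  by_cases ha : a = 0
  · exact ⟨0, by rw [ha, map_zero, map_zero, zero_mul]⟩
  have hM1 : 1 ≤ M := by omega
  have hta : tw σ q M a ≠ 0 := fun h0 => ha (tw_injective hM1 hq (by rw [h0, map_zero]))
  have htb : tw σ q M b ≠ 0 := fun h0 => hb (tw_injective hM1 hq (by rw [h0, map_zero]))
  have hdeg := degree_eq_of_inv hM hq ha hb h
  have hla : lex.leadingCoeff a ≠ 0 := lex.leadingCoeff_ne_zero_iff.mpr ha
  have hlb : lex.leadingCoeff b ≠ 0 := lex.leadingCoeff_ne_zero_iff.mpr hb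
  have h1 := congrArg lex.leadingCoeff h
  have h2 : lex.leadingCoeff (tw σ q M a * b) = lex.leadingCoeff (tw σ q M a) * lex.leadingCoeff b :=
    lex.leadingCoeff_mul_of_left_mem_nonZeroDivisors
      (mem_nonZeroDivisors_of_ne_zero (lex.leadingCoeff_ne_zero_iff.mpr hta))
  have h3 : lex.leadingCoeff (tw σ q M b * a) = lex.leadingCoeff (tw σ q M b) * lex.leadingCoeff a :=
    lex.leadingCoeff_mul_of_left_mem_nonZeroDivisors
      (mem_nonZeroDivisors_of_ne_zero (lex.leadingCoeff_ne_zero_iff.mpr htb))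
  rw [h2, h3, leadingCoeff_tw hM1 hq ha, leadingCoeff_tw hM1 hq hb, hdeg] at h1
  have hP := prod_pow_ne_zero hq (lex.degree b)
  have h4 : σ (lex.leadingCoeff a) * lex.leadingCoeff b =
      σ (lex.leadingCoeff b) * lex.leadingCoeff a := by
    apply mul_right_cancel₀ hP
    linear_combination h1
  obtain ⟨c, hc⟩ := hfix (lex.leadingCoeff a / lex.leadingCoeff b) (by
    rw [map_div₀, div_eq_div_iff ((map_ne_zero σ).mpr hlb) hlb, h4, mul_comm])
  refine ⟨c, ?_⟩
  by_contra hne
  set a' := a - C (algebraMap k L c) * b with ha'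
  have ha'0 : a' ≠ 0 := fun h0 => hne (sub_eq_zero.mp h0)
  have h5 : tw σ q M a' * b = tw σ q M b * a' := by
    rw [ha', map_sub, map_mul, tw_C, hσk]
    linear_combination h
  have h6 := degree_eq_of_inv hM hq ha'0 hb h5
  have h7 : coeff (lex.degree b) a' = 0 := by
    rw [ha', coeff_sub, coeff_C_mul, ← hc]
    have h8 : coeff (lex.degree b) a = lex.leadingCoeff a := by rw [← hdeg]; rfl
    have h9 : coeff (lex.degree b) b = lex.leadingCoeff b := rfl
    rw [h8, h9]
    field_simp
    ring
  rw [← h6] at h7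
  exact lex.coeff_degree_ne_zero_iff.mpr ha'0 h7

end Pool.Agent.H12.ZD
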