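import Pool.Agent.H12.ZD.LiftA
import Pool.Agent.H12.ZD.Avoid
import Mathlib.RingTheory.Localization.FractionRing

/-!
# The polynomial lift of a rational triangular map
-/

open MvPolynomial

namespace Pool.Agent.H12.ZD

section lift

variable {k : Type*} [Field k] {N : ℕ}

/-- the index of the variable `u_i` -/
def iu (i : Fin N) : Fin (N * 2) := finProdFinEquiv (i, 0)

/-- the index of the variable `w_i` -/
def iw (i : Fin N) : Fin (N * 2) := finProdFinEquiv (i, 1)

theorem iu_val (i : Fin N) : (iu i : ℕ) = 2 * i := by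
  simp [iu, finProdFinEquiv]

theorem iw_val (i : Fin N) : (iw i : ℕ) = 1 + 2 * i := by
  simp [iw, finProdFinEquiv]

/-- every index is one of the two kinds -/
theorem index_cases (s : Fin (N * 2)) : (∃ i, s = iu i) ∨ ∃ i, s = iw i := by
  obtain ⟨⟨i, a⟩, rfl⟩ := finProdFinEquiv.surjective s
  fin_cases a
  · exact Or.inl ⟨i, rfl⟩
  · exact Or.inr ⟨i, rfl⟩

/-- homogenization in the variables of `S`, in degree `M` -/
noncomputable def hom (S : Finset (Fin N)) (M : ℕ) (a : MvPolynomial (Fin N) k) :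
    MvPolynomial (Fin (N * 2)) k :=
  ∑ m ∈ a.support, C (coeff m a) * ∏ j ∈ S, (X (iu j) ^ m j * X (iw j) ^ (M - m j))

theorem vars_hom (S : Finset (Fin N)) (M : ℕ) (a : MvPolynomial (Fin N) k) (s : Fin (N * 2))
    (hs : s ∈ (hom S M a).vars) : (∃ j ∈ S, s = iw j) ∨ ∃ j ∈ S, j ∈ a.vars ∧ s = iu j := by
  classical
  rw [hom] at hs
  obtain ⟨m, hm, h1⟩ := Finset.mem_biUnion.mp (vars_sum_subset _ _ hs)
  rcases Finset.mem_union.mp (vars_mul _ _ h1) with h2 | h2
  · rw [vars_C] at h2
    exact absurd h2 (Finset.notMem_empty _)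
  · obtain ⟨j, hj, h3⟩ := Finset.mem_biUnion.mp (vars_prod _ h2)
    rcases Finset.mem_union.mp (vars_mul _ _ h3) with h4 | h4
    · right
      by_cases hmj : m j = 0
      · rw [hmj, pow_zero, vars_one] at h4
        exact absurd h4 (Finset.notMem_empty _)
      · have h5 := vars_pow _ _ h4
        rw [vars_X, Finset.mem_singleton] at h5
        refine ⟨j, hj, ?_, h5⟩
        rw [mem_vars]
        exact ⟨m, hm, Finsupp.mem_support_iff.mpr hmj⟩
    · left
      have h5 := vars_pow _ _ h4
      rw [vars_X, Finset.mem_singleton] at h5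
      exact ⟨j, hj, h5⟩

theorem monomial_expand {S : Finset (Fin N)} {M : ℕ} {a : MvPolynomial (Fin N) k}
    (hS : ∀ j ∈ a.vars, j ∈ S) (hM : ∀ j, a.degreeOf j ≤ M) {R : Type*} [CommRing R]
    (U W : Fin N → R) (m : Fin N →₀ ℕ) (hm : m ∈ a.support) :
    ∏ j ∈ S, ((U j * W j) ^ m j * W j ^ (M - m j)) = (∏ j, U j ^ m j) * ∏ j ∈ S, W j ^ M := by
  classical
  have h1 : ∏ j, U j ^ m j = ∏ j ∈ S, U j ^ m j := by
    symm
    apply Finset.prod_subset (Finset.subset_univ S)
    intro j _ hj
    have : m j = 0 := by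
      by_contra hne
      apply hj
      apply hS
      rw [mem_vars]
      exact ⟨m, hm, Finsupp.mem_support_iff.mpr hne⟩
    rw [this, pow_zero]
  rw [h1, ← Finset.prod_mul_distrib]
  apply Finset.prod_congr rfl
  intro j _
  have h2 : m j ≤ M := (monomial_le_degreeOf j hm).trans (hM j)
  rw [mul_pow, mul_assoc, ← pow_add, Nat.add_sub_cancel' h2]

theorem eval_hom {S : Finset (Fin N)} {M : ℕ} {a : MvPolynomial (Fin N) k}
    (hS : ∀ j ∈ a.vars, j ∈ S) (hM : ∀ j, a.degreeOf j ≤ M) (z : Fin (N * 2) → k)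
    (hz : ∀ j, z (iw j) ≠ 0) :
    eval z (hom S M a) =
      eval (fun j => z (iu j) / z (iw j)) a * ∏ j ∈ S, z (iw j) ^ M := by
  classical
  rw [hom, map_sum]
  conv_rhs => rw [eval_eq, Finset.sum_mul]
  apply Finset.sum_congr rfl
  intro m hm
  rw [map_mul, eval_C, map_prod, mul_assoc]
  have hm' := hm
  have h1 : ∏ j ∈ S, eval z (X (iu j) ^ m j * X (iw j) ^ (M - m j)) =
      ∏ j ∈ S, ((z (iu j) / z (iw j) * z (iw j)) ^ m j * z (iw j) ^ (M - m j)) := by
    apply Finset.prod_congr rfl
    intro j _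
    rw [map_mul, map_pow, map_pow, eval_X, eval_X, div_mul_cancel₀ _ (hz j)]
  rw [h1, monomial_expand hS hM (fun j => z (iu j) / z (iw j)) (fun j => z (iw j)) m hm]
  congr 2
  rw [Finset.prod_subset (Finset.subset_univ m.support)]
  intro j _ hj
  rw [Finsupp.notMem_support_iff.mp hj, pow_zero]

/-- the last factor of `hom` vanishes with `w_j` when `a` does not involve `x_j` -/
theorem eval_hom_eq_zero {S : Finset (Fin N)} {M : ℕ} (hM : 1 ≤ M) {a : MvPolynomial (Fin N) k}
    {j : Fin N} (hj : j ∈ S) (hja : j ∉ a.vars) (z : Fin (N * 2) → k) (hz : z (iw j) = 0) :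
    eval z (hom S M a) = 0 := by
  classical
  rw [hom, map_sum]
  apply Finset.sum_eq_zero
  intro m hm
  rw [map_mul, map_prod]
  have h1 : m j = 0 := by
    by_contra hne
    apply hja
    rw [mem_vars]
    exact ⟨m, hm, Finsupp.mem_support_iff.mpr hne⟩
  rw [Finset.prod_eq_zero hj, mul_zero]
  rw [map_mul, map_pow, map_pow, eval_X, eval_X, hz, h1, pow_zero, one_mul, Nat.sub_zero,
    zero_pow (by omega)]

/-- the substitution `u_i ↦ x_i v_i`, `w_i ↦ v_i` -/
noncomputable def th₀ : MvPolynomial (Fin (N * 2)) k →ₐ[k]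
    MvPolynomial (Fin N) (MvPolynomial (Fin N) k) :=
  aeval fun s => if (finProdFinEquiv.symm s).2 = 0 then
    C (X (finProdFinEquiv.symm s).1) * X (finProdFinEquiv.symm s).1
    else X (finProdFinEquiv.symm s).1

theorem th₀_iu (i : Fin N) : th₀ (k := k) (X (iu i)) = C (X i) * X i := by
  rw [th₀, aeval_X, iu, Equiv.symm_apply_apply]
  simp

theorem th₀_iw (i : Fin N) : th₀ (k := k) (X (iw i)) = X i := by
  rw [th₀, aeval_X, iw, Equiv.symm_apply_apply]
  simp

theorem th₀_injective : Function.Injective (th₀ (k := k) (N := N)) := by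
  set R := MvPolynomial (Fin (N * 2)) k with hR
  set L := FractionRing R with hL
  let back : MvPolynomial (Fin N) (MvPolynomial (Fin N) k) →+* L :=
    eval₂Hom (aeval (fun i => algebraMap R L (X (iu i)) / algebraMap R L (X (iw i))) :
      MvPolynomial (Fin N) k →ₐ[k] L).toRingHom (fun i => algebraMap R L (X (iw i)))
  have hcomp : back.comp (th₀ (k := k) (N := N)).toRingHom = algebraMap R L := by
    apply MvPolynomial.ringHom_ext
    · intro c
      change back (th₀ (C c)) = _
      rw [th₀, aeval_C]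
      change back (algebraMap k _ c) = _
      have h1 : algebraMap k (MvPolynomial (Fin N) (MvPolynomial (Fin N) k)) c = C (C c) := rfl
      rw [h1]
      change (eval₂Hom _ _) _ = _
      rw [coe_eval₂Hom, eval₂_C]
      change (aeval _) (C c) = _
      rw [aeval_C]
      exact IsScalarTower.algebraMap_apply k R L c
    · intro s
      change back (th₀ (X s)) = _
      rcases index_cases s with ⟨i, rfl⟩ | ⟨i, rfl⟩
      · rw [th₀_iu, map_mul]
        have h1 : back (C (X i)) = algebraMap R L (X (iu i)) / algebraMap R L (X (iw i)) := by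
          change (eval₂Hom _ _) _ = _
          rw [coe_eval₂Hom, eval₂_C]
          change (aeval _) (X i) = _
          rw [aeval_X]
        have h2 : back (X i) = algebraMap R L (X (iw i)) := by
          change (eval₂Hom _ _) _ = _
          rw [coe_eval₂Hom, eval₂_X]
        rw [h1, h2, div_mul_cancel₀]
        rw [Ne, map_eq_zero_iff _ (IsFractionRing.injective R L)]
        exact X_ne_zero _
      · rw [th₀_iw]
        change (eval₂Hom _ _) _ = _
        rw [coe_eval₂Hom, eval₂_X]
  intro a b hab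
  apply IsFractionRing.injective R L
  rw [← hcomp]
  change back (th₀ a) = back (th₀ b)
  rw [hab]

end lift

end Pool.Agent.H12.ZD
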