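import Pool.Agent.H12.ZD.LiftB

/-!
# The polynomial lift of a rational triangular map: dominance and invariants
-/

open MvPolynomial

namespace Pool.Agent.H12.ZD

/-- A rational triangular self-map of affine `N`-space given by numerators `P i` and denominators
`q i`: the `i`-th coordinate function is `P i / q i`, where `P i` involves only the variables
`x_j` with `j ≥ i` and `q i` only those with `j > i`. -/
structure RatTri {k : Type*} [Field k] {N : ℕ} (P q : Fin N → MvPolynomial (Fin N) k) : Prop where
  num : ∀ i, ∀ j ∈ (P i).vars, i ≤ j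
  den : ∀ i, ∀ j ∈ (q i).vars, i < j
  den_ne : ∀ i, q i ≠ 0

section

variable {k : Type*} [Field k] {N : ℕ}

/-- the coordinate functions in the function field -/
noncomputable def ratF (P q : Fin N → MvPolynomial (Fin N) k) (i : Fin N) :
    FractionRing (MvPolynomial (Fin N) k) :=
  algebraMap _ _ (P i) / algebraMap _ _ (q i)

/-- the polynomial map on the space of `u_i, w_i` -/
noncomputable def lift (M : ℕ) (P q : Fin N → MvPolynomial (Fin N) k) (s : Fin (N * 2)) :
    MvPolynomial (Fin (N * 2)) k :=
  if (finProdFinEquiv.symm s).2 = 0 then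
    hom (Finset.univ.filter ((finProdFinEquiv.symm s).1 ≤ ·)) M (P (finProdFinEquiv.symm s).1)
  else hom (Finset.univ.filter ((finProdFinEquiv.symm s).1 ≤ ·)) M (q (finProdFinEquiv.symm s).1)

theorem lift_iu (M : ℕ) (P q : Fin N → MvPolynomial (Fin N) k) (i : Fin N) :
    lift M P q (iu i) = hom (Finset.univ.filter (i ≤ ·)) M (P i) := by
  rw [lift, iu, Equiv.symm_apply_apply]
  simp

theorem lift_iw (M : ℕ) (P q : Fin N → MvPolynomial (Fin N) k) (i : Fin N) :
    lift M P q (iw i) = hom (Finset.univ.filter (i ≤ ·)) M (q i) := by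
  rw [lift, iw, Equiv.symm_apply_apply]
  simp

variable {P q : Fin N → MvPolynomial (Fin N) k} {M : ℕ}

theorem lift_tri (h : RatTri P q) : Tri (lift M P q) := by
  intro s j hj
  rcases index_cases s with ⟨i, rfl⟩ | ⟨i, rfl⟩
  · rw [lift_iu] at hj
    rcases vars_hom _ _ _ _ hj with ⟨l, hl, rfl⟩ | ⟨l, hl, -, rfl⟩
    · have h1 := (Finset.mem_filter.mp hl).2
      rw [Fin.le_def, iu_val, iw_val]
      have := Fin.le_def.mp h1
      omega
    · have h1 := (Finset.mem_filter.mp hl).2
      rw [Fin.le_def, iu_val, iu_val]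
      have := Fin.le_def.mp h1
      omega
  · rw [lift_iw] at hj
    rcases vars_hom _ _ _ _ hj with ⟨l, hl, rfl⟩ | ⟨l, hl, h2, rfl⟩
    · have h1 := (Finset.mem_filter.mp hl).2
      rw [Fin.le_def, iw_val, iw_val]
      have := Fin.le_def.mp h1
      omega
    · have h1 := h.den i l h2
      rw [Fin.le_def, iw_val, iu_val]
      have := Fin.lt_def.mp h1
      omega

/-- the substitution `u_i ↦ x_i v_i`, `w_i ↦ v_i`, with coefficients in the function field -/
noncomputable def th : MvPolynomial (Fin (N * 2)) k →+*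
    MvPolynomial (Fin N) (FractionRing (MvPolynomial (Fin N) k)) :=
  (map (algebraMap (MvPolynomial (Fin N) k) (FractionRing (MvPolynomial (Fin N) k)))).comp
    (th₀ (k := k) (N := N)).toRingHom

theorem th_injective : Function.Injective (th (k := k) (N := N)) :=
  (map_injective _ (IsFractionRing.injective _ _)).comp th₀_injective

theorem th_C (c : k) : th (N := N) (C c) =
    C (algebraMap (MvPolynomial (Fin N) k) (FractionRing (MvPolynomial (Fin N) k)) (C c)) := by
  change map _ (th₀ (C c)) = _
  rw [th₀, aeval_C]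
  have h1 : algebraMap k (MvPolynomial (Fin N) (MvPolynomial (Fin N) k)) c = C (C c) := rfl
  rw [h1, map_C]

theorem th_iu (i : Fin N) : th (k := k) (X (iu i)) =
    C (algebraMap (MvPolynomial (Fin N) k) (FractionRing (MvPolynomial (Fin N) k)) (X i)) * X i := by
  change map _ (th₀ (X _)) = _
  rw [th₀_iu, map_mul, map_C, map_X]

theorem th_iw (i : Fin N) : th (k := k) (X (iw i)) = X i := by
  change map _ (th₀ (X _)) = _
  rw [th₀_iw, map_X]

theorem th_hom {S : Finset (Fin N)} {a : MvPolynomial (Fin N) k}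
    (hS : ∀ j ∈ a.vars, j ∈ S) (hM : ∀ j, a.degreeOf j ≤ M) :
    th (hom S M a) = C (algebraMap (MvPolynomial (Fin N) k)
      (FractionRing (MvPolynomial (Fin N) k)) a) * ∏ j ∈ S, X j ^ M := by
  classical
  rw [hom, map_sum]
  conv_rhs => rw [as_sum a, map_sum, map_sum, Finset.sum_mul]
  apply Finset.sum_congr rfl
  intro m hm
  rw [map_mul, th_C, map_prod]
  have h1 : ∏ j ∈ S, th (k := k) (X (iu j) ^ m j * X (iw j) ^ (M - m j)) =
      ∏ j ∈ S, ((C (algebraMap (MvPolynomial (Fin N) k)
        (FractionRing (MvPolynomial (Fin N) k)) (X j)) * X j) ^ m j * X j ^ (M - m j)) := by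
    apply Finset.prod_congr rfl
    intro j _
    rw [map_mul, map_pow, map_pow, th_iu, th_iw]
  rw [h1, monomial_expand hS hM (fun j => C (algebraMap (MvPolynomial (Fin N) k)
        (FractionRing (MvPolynomial (Fin N) k)) (X j))) (fun j => X j) m hm, ← mul_assoc]
  congr 1
  rw [monomial_eq, Finsupp.prod_fintype _ _ (fun _ => pow_zero _), map_mul, map_prod, map_mul,
    map_prod]
  congr 1
  apply Finset.prod_congr rfl
  intro j _
  rw [map_pow, map_pow]

variable (hdom : Function.Injective (aeval (ratF P q) : MvPolynomial (Fin N) k →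
    FractionRing (MvPolynomial (Fin N) k)))

/-- the endomorphism of the function field -/
noncomputable def sg : FractionRing (MvPolynomial (Fin N) k) →+*
    FractionRing (MvPolynomial (Fin N) k) :=
  IsFractionRing.lift (g := (aeval (ratF P q) : MvPolynomial (Fin N) k →ₐ[k] _).toRingHom) hdom

theorem sg_algebraMap (a : MvPolynomial (Fin N) k) :
    sg hdom (algebraMap _ _ a) = aeval (ratF P q) a := by
  rw [sg, IsFractionRing.lift_algebraMap]
  rfl

theorem ratF_mul (h : RatTri P q) (i : Fin N) :
    ratF P q i * algebraMap _ _ (q i) = algebraMap _ _ (P i) := by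
  rw [ratF, div_mul_cancel₀]
  rw [Ne, map_eq_zero_iff _ (IsFractionRing.injective _ _)]
  exact h.den_ne i

theorem tw_th (h : RatTri P q) (hMP : ∀ i j, (P i).degreeOf j ≤ M)
    (hMq : ∀ i j, (q i).degreeOf j ≤ M) (a : MvPolynomial (Fin (N * 2)) k) :
    tw (sg hdom) (fun i => algebraMap _ _ (q i)) M (th a) = th (aeval (lift M P q) a) := by
  have hcomp : (tw (sg hdom) (fun i => algebraMap _ _ (q i)) M).comp th =
      th.comp (aeval (lift M P q) : MvPolynomial (Fin (N * 2)) k →ₐ[k] _).toRingHom := by
    apply MvPolynomial.ringHom_ext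
    · intro c
      change tw _ _ _ (th (C c)) = th (aeval (lift M P q) (C c))
      rw [aeval_C, algebraMap_eq, th_C, tw_C, sg_algebraMap, aeval_C]
      rfl
    · intro s
      change tw _ _ _ (th (X s)) = th (aeval (lift M P q) (X s))
      rw [aeval_X]
      rcases index_cases s with ⟨i, rfl⟩ | ⟨i, rfl⟩
      · rw [th_iu, map_mul, tw_C, tw_X, sg_algebraMap, aeval_X, lift_iu,
          th_hom (fun j hj => Finset.mem_filter.mpr ⟨Finset.mem_univ j, h.num i j hj⟩) (hMP i),
          ← mul_assoc, ← map_mul, ratF_mul h]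
      · rw [th_iw, tw_X, lift_iw,
          th_hom (fun j hj => Finset.mem_filter.mpr ⟨Finset.mem_univ j, (h.den i j hj).le⟩) (hMq i)]
  exact DFunLike.congr_fun hcomp a

theorem algebraMap_q_ne (h : RatTri P q) (i : Fin N) :
    algebraMap (MvPolynomial (Fin N) k) (FractionRing (MvPolynomial (Fin N) k)) (q i) ≠ 0 := by
  rw [Ne, map_eq_zero_iff _ (IsFractionRing.injective _ _)]
  exact h.den_ne i

include hdom in
theorem lift_injective (h : RatTri P q) (hM : 2 ≤ M) (hMP : ∀ i j, (P i).degreeOf j ≤ M)
    (hMq : ∀ i j, (q i).degreeOf j ≤ M) :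
    Function.Injective (aeval (lift M P q) : MvPolynomial (Fin (N * 2)) k → _) := by
  intro a b hab
  apply th_injective
  apply tw_injective (σ := sg hdom) (by omega : 1 ≤ M) (algebraMap_q_ne h)
  rw [tw_th hdom h hMP hMq, tw_th hdom h hMP hMq]
  exact congrArg th hab

include hdom in
/-- The lift is not fibred when the rational map is not fibred. -/
theorem lift_noInv (h : RatTri P q) (hM : 2 ≤ M) (hMP : ∀ i j, (P i).degreeOf j ≤ M)
    (hMq : ∀ i j, (q i).degreeOf j ≤ M)
    (hinv : ∀ a b : MvPolynomial (Fin N) k, b ≠ 0 →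
      aeval (ratF P q) a * algebraMap _ _ b = aeval (ratF P q) b * algebraMap _ _ a →
      ∃ c : k, a = C c * b) : NoInv (lift M P q) := by
  rintro ⟨a, b, hb, hab, heq⟩
  have hb' : th b ≠ 0 := fun h0 => hb (th_injective (by rw [h0, map_zero]))
  have h1 : tw (sg hdom) (fun i => algebraMap _ _ (q i)) M (th a) * th b =
      tw (sg hdom) (fun i => algebraMap _ _ (q i)) M (th b) * th a := by
    rw [tw_th hdom h hMP hMq, tw_th hdom h hMP hMq, ← map_mul, ← map_mul, heq]
  obtain ⟨c, hc⟩ := exists_const_of_inv (k := k)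
    (fun c => by
      rw [IsScalarTower.algebraMap_apply k (MvPolynomial (Fin N) k)
        (FractionRing (MvPolynomial (Fin N) k)), sg_algebraMap, algebraMap_eq, aeval_C,
        IsScalarTower.algebraMap_apply k (MvPolynomial (Fin N) k)
        (FractionRing (MvPolynomial (Fin N) k))]
      rfl)
    (fun x hx => by
      obtain ⟨a, b, hb, rfl⟩ := IsFractionRing.div_surjective (A := MvPolynomial (Fin N) k) x
      have hb0 : b ≠ 0 := nonZeroDivisors.ne_zero hb
      have hb1 : algebraMap (MvPolynomial (Fin N) k) (FractionRing (MvPolynomial (Fin N) k)) b ≠ 0 := by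
        rwa [Ne, map_eq_zero_iff _ (IsFractionRing.injective _ _)]
      have hb2 : aeval (ratF P q) b ≠ 0 := by
        intro h0
        apply hb0
        apply hdom
        rw [h0, map_zero]
      rw [map_div₀, sg_algebraMap, sg_algebraMap, div_eq_div_iff hb2 hb1] at hx
      obtain ⟨c, hc⟩ := hinv a b hb0 (by rw [hx]; ring)
      refine ⟨c, ?_⟩
      rw [hc, map_mul, mul_div_cancel_right₀ _ hb1]
      rw [IsScalarTower.algebraMap_apply k (MvPolynomial (Fin N) k)
        (FractionRing (MvPolynomial (Fin N) k))]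
      rfl)
    hM (algebraMap_q_ne h) hb' h1
  apply hab c
  apply th_injective
  rw [hc, map_mul, th_C]
  rfl

end

end Pool.Agent.H12.ZD
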