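import Pool.Agent.H12.ZD.LiftC

/-!
# Dense orbits of rational triangular maps
-/

open MvPolynomial

namespace Pool.Agent.H12.ZD

/-- the rational map `x ↦ P i (x) / q i (x)` -/
noncomputable def rmap {k : Type*} [Field k] {N : ℕ} (P q : Fin N → MvPolynomial (Fin N) k)
    (x : Fin N → k) : Fin N → k := fun i => eval x (P i) / eval x (q i)

section

variable {k : Type*} [Field k] {N : ℕ} {P q : Fin N → MvPolynomial (Fin N) k} {M : ℕ}

/-- along a dense orbit of the lift the `w`-coordinates do not vanish -/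
theorem w_ne_zero (h : RatTri P q) (hM : 1 ≤ M) {z : Fin (N * 2) → k}
    (hz : DenseOrbit (lift M P q) z) (n : ℕ) (j : Fin N) :
    (pmap (lift M P q))^[n] z (iw j) ≠ 0 := by
  classical
  intro h0
  have hstep : ∀ m, (pmap (lift M P q))^[n + m] z (iw j) = 0 := by
    intro m
    induction m with
    | zero => exact h0
    | succ m ih =>
      rw [← add_assoc, Function.iterate_succ_apply']
      change eval _ (lift M P q (iw j)) = 0
      rw [lift_iw]
      apply eval_hom_eq_zero hM (Finset.mem_filter.mpr ⟨Finset.mem_univ j, le_rfl⟩) _ _ ih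
      intro hj
      exact lt_irrefl _ (h.den j j hj)
  have hne : (X (iw j) * ∏ m ∈ Finset.range n,
      (X (iw j) - C ((pmap (lift M P q))^[m] z (iw j))) : MvPolynomial (Fin (N * 2)) k) ≠ 0 := by
    apply mul_ne_zero (X_ne_zero _)
    rw [Finset.prod_ne_zero_iff]
    intro m _ h1
    have h2 := congrArg (eval (fun _ => (pmap (lift M P q))^[m] z (iw j) + 1)) h1
    rw [map_sub, eval_X, eval_C, map_zero] at h2
    simp at h2
  apply hne
  apply hz
  intro m
  rw [map_mul, map_prod]
  rcases Nat.lt_or_ge m n with hm | hm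
  · rw [Finset.prod_eq_zero (Finset.mem_range.mpr hm), mul_zero]
    rw [map_sub, eval_X, eval_C, sub_self]
  · obtain ⟨l, rfl⟩ := Nat.exists_eq_add_of_le hm
    rw [eval_X, hstep l, zero_mul]

/-- the quotient of a point -/
def quo (z : Fin (N * 2) → k) : Fin N → k := fun j => z (iu j) / z (iw j)

theorem quo_step (h : RatTri P q) (hMP : ∀ i j, (P i).degreeOf j ≤ M)
    (hMq : ∀ i j, (q i).degreeOf j ≤ M) {z : Fin (N * 2) → k} (hz : ∀ j, z (iw j) ≠ 0)
    (hz' : ∀ j, pmap (lift M P q) z (iw j) ≠ 0) :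
    quo (pmap (lift M P q) z) = rmap P q (quo z) ∧ ∀ i, eval (quo z) (q i) ≠ 0 := by
  have h1 : ∀ i, pmap (lift M P q) z (iu i) =
      eval (quo z) (P i) * ∏ j ∈ Finset.univ.filter (i ≤ ·), z (iw j) ^ M := by
    intro i
    change eval z (lift M P q (iu i)) = _
    rw [lift_iu, eval_hom (fun j hj => Finset.mem_filter.mpr ⟨Finset.mem_univ j, h.num i j hj⟩)
      (hMP i) z hz]
    rfl
  have h2 : ∀ i, pmap (lift M P q) z (iw i) =
      eval (quo z) (q i) * ∏ j ∈ Finset.univ.filter (i ≤ ·), z (iw j) ^ M := by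
    intro i
    change eval z (lift M P q (iw i)) = _
    rw [lift_iw, eval_hom (fun j hj => Finset.mem_filter.mpr
      ⟨Finset.mem_univ j, (h.den i j hj).le⟩) (hMq i) z hz]
    rfl
  have h3 : ∀ i, eval (quo z) (q i) ≠ 0 := by
    intro i h0
    apply hz' i
    rw [h2, h0, zero_mul]
  refine ⟨?_, h3⟩
  funext i
  change pmap (lift M P q) z (iu i) / pmap (lift M P q) z (iw i) =
    eval (quo z) (P i) / eval (quo z) (q i)
  have h4 : ∏ j ∈ Finset.univ.filter (i ≤ ·), z (iw j) ^ M ≠ 0 :=
    Finset.prod_ne_zero_iff.mpr fun j _ => pow_ne_zero _ (hz j)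
  rw [h1, h2, mul_div_mul_right _ _ h4]

end

/-- **Dense orbits of rational triangular maps.** They exist near prescribed points at finitely
many primes, and inside the complement of a given hypersurface. -/
theorem exists_dense_rational (N : ℕ) (P q : Fin N → MvPolynomial (Fin N) (AlgebraicClosure ℚ))
    (h : RatTri P q)
    (hdom : Function.Injective (aeval (ratF P q) : MvPolynomial (Fin N) (AlgebraicClosure ℚ) →
      FractionRing (MvPolynomial (Fin N) (AlgebraicClosure ℚ))))
    (hinv : ∀ a b : MvPolynomial (Fin N) (AlgebraicClosure ℚ), b ≠ 0 →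
      aeval (ratF P q) a * algebraMap _ _ b = aeval (ratF P q) b * algebraMap _ _ a →
      ∃ c : AlgebraicClosure ℚ, a = C c * b)
    (b : MvPolynomial (Fin N) (AlgebraicClosure ℚ)) (hb : b ≠ 0)
    (T : Finset Nat.Primes) (t : Nat.Primes → Fin N → (AlgebraicClosure ℚ))
    {ε : ℝ} (hε : 0 < ε) :
    ∃ x : Fin N → (AlgebraicClosure ℚ), (∀ p ∈ T, ∀ i, v p (x i - t p i) < ε) ∧
      (∀ n i, eval ((rmap P q)^[n] x) (q i) ≠ 0) ∧
      (∀ n, eval ((rmap P q)^[n] x) b ≠ 0) ∧
      ∀ g : MvPolynomial (Fin N) (AlgebraicClosure ℚ),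
        (∀ n, eval ((rmap P q)^[n] x) g = 0) → g = 0 := by
  classical
  -- the degree bound
  obtain ⟨M, hM2, hMP, hMq⟩ : ∃ M : ℕ, 2 ≤ M ∧ (∀ i j, (P i).degreeOf j ≤ M) ∧
      ∀ i j, (q i).degreeOf j ≤ M := by
    refine ⟨2 + ∑ i, ((P i).totalDegree + (q i).totalDegree), by omega, ?_, ?_⟩
    · intro i j
      have h1 := degreeOf_le_totalDegree (P i) j
      have h2 : (P i).totalDegree + (q i).totalDegree ≤
          ∑ i, ((P i).totalDegree + (q i).totalDegree) :=
        Finset.single_le_sum (f := fun i => (P i).totalDegree + (q i).totalDegree)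
          (fun _ _ => Nat.zero_le _) (Finset.mem_univ i)
      omega
    · intro i j
      have h1 := degreeOf_le_totalDegree (q i) j
      have h2 : (P i).totalDegree + (q i).totalDegree ≤
          ∑ i, ((P i).totalDegree + (q i).totalDegree) :=
        Finset.single_le_sum (f := fun i => (P i).totalDegree + (q i).totalDegree)
          (fun _ _ => Nat.zero_le _) (Finset.mem_univ i)
      omega
  have hM1 : 1 ≤ M := by omega
  -- homogenizations
  have hhom : ∀ a : MvPolynomial (Fin N) (AlgebraicClosure ℚ), ∀ j,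
      a.degreeOf j ≤ a.totalDegree := fun a j => degreeOf_le_totalDegree a j
  have hhom0 : ∀ a : MvPolynomial (Fin N) (AlgebraicClosure ℚ), a ≠ 0 →
      hom Finset.univ a.totalDegree a ≠ 0 := by
    intro a ha h0
    have h1 := th_hom (S := Finset.univ) (fun j _ => Finset.mem_univ j) (hhom a)
    rw [h0, map_zero] at h1
    have h2 := mul_eq_zero.mp h1.symm
    rcases h2 with h2 | h2
    · rw [C_eq_zero, map_eq_zero_iff _ (IsFractionRing.injective _ _)] at h2
      exact ha h2
    · rw [Finset.prod_eq_zero_iff] at h2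
      obtain ⟨j, -, h3⟩ := h2
      exact pow_ne_zero _ (X_ne_zero j) h3
  -- the precision
  set S : ℝ := ∑ p ∈ T, ∑ i, v p (t p i) with hS
  have hS0 : 0 ≤ S := Finset.sum_nonneg fun p _ => Finset.sum_nonneg fun i _ => v_nonneg p _
  have hSle : ∀ p ∈ T, ∀ i, v p (t p i) ≤ S := by
    intro p hp i
    calc v p (t p i) ≤ ∑ i, v p (t p i) :=
          Finset.single_le_sum (f := fun i => v p (t p i)) (fun _ _ => v_nonneg p _)
            (Finset.mem_univ i)
      _ ≤ S := Finset.single_le_sum (f := fun p => ∑ i, v p (t p i))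
          (fun p _ => Finset.sum_nonneg fun i _ => v_nonneg p _) hp
  set δ : ℝ := min 1 (ε / (1 + S)) with hδ
  have hδ0 : 0 < δ := lt_min one_pos (div_pos hε (by linarith))
  have hδ1 : δ ≤ 1 := min_le_left _ _
  have hδε : δ * (1 + S) ≤ ε := by
    have h1 : δ ≤ ε / (1 + S) := min_le_right _ _
    rwa [le_div_iff₀ (by linarith)] at h1
  obtain ⟨z, hzT, hzd, hzb⟩ := exists_dense_near_avoid (N * 2) (lift M P q) (lift_tri h)
    (lift_injective hdom h hM2 hMP hMq) (lift_noInv hdom h hM2 hMP hMq hinv)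
    (hom Finset.univ b.totalDegree b) (hhom0 b hb) T
    (fun p s => if (finProdFinEquiv.symm s).2 = 0 then t p (finProdFinEquiv.symm s).1 else 1) hδ0
  have hzu : ∀ p ∈ T, ∀ i, v p (z (iu i) - t p i) < δ := by
    intro p hp i
    have h1 := hzT p hp (iu i)
    have h2 : finProdFinEquiv.symm (iu i) = (i, (0 : Fin 2)) := Equiv.symm_apply_apply _ _
    rw [h2, if_pos rfl] at h1
    exact h1
  have hzw : ∀ p ∈ T, ∀ i, v p (z (iw i) - 1) < δ := by
    intro p hp i
    have h1 := hzT p hp (iw i)
    have h2 : finProdFinEquiv.symm (iw i) = (i, (1 : Fin 2)) := Equiv.symm_apply_apply _ _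
    rw [h2, if_neg (show ¬ ((1 : Fin 2) = 0) by decide)] at h1
    exact h1
  have hw := w_ne_zero h hM1 hzd
  have hstep := fun n => quo_step h hMP hMq (hw n) (by
    have h1 := hw (n + 1)
    intro j
    have h2 := h1 j
    rwa [Function.iterate_succ_apply'] at h2)
  have hit : ∀ n, (rmap P q)^[n] (quo z) = quo ((pmap (lift M P q))^[n] z) := by
    intro n
    induction n with
    | zero => rfl
    | succ n ih =>
      rw [Function.iterate_succ_apply', ih, Function.iterate_succ_apply', (hstep n).1]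
  have heval : ∀ (a : MvPolynomial (Fin N) (AlgebraicClosure ℚ)) n,
      eval ((pmap (lift M P q))^[n] z) (hom Finset.univ a.totalDegree a) =
      eval ((rmap P q)^[n] (quo z)) a *
        ∏ j ∈ (Finset.univ : Finset (Fin N)), ((pmap (lift M P q))^[n] z (iw j)) ^ a.totalDegree := by
    intro a n
    rw [hit, eval_hom (fun j _ => Finset.mem_univ j) (hhom a) _ (hw n)]
    rfl
  refine ⟨quo z, ?_, ?_, ?_, ?_⟩
  · intro p hp i
    have h1 : v p (z (iw i)) = 1 := by
      have h2 : v p (z (iw i) - 1) < v p (1 : AlgebraicClosure ℚ) := by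
        rw [v_one]
        exact (hzw p hp i).trans_le hδ1
      rw [v_eq_of_sub_lt p h2, v_one]
    have h3 : quo z i - t p i = ((z (iu i) - t p i) + (-(t p i * (z (iw i) - 1)))) * (z (iw i))⁻¹ := by
      have h4 := hw 0 i
      change z (iw i) ≠ 0 at h4
      change z (iu i) / z (iw i) - t p i = _
      field_simp
      ring
    rw [h3, v_mul, v_inv, h1, inv_one, mul_one]
    apply v_add_lt
    · calc v p (z (iu i) - t p i) < δ := hzu p hp i
        _ ≤ δ * (1 + S) := by nlinarith
        _ ≤ ε := hδε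
    · rw [v_neg, v_mul]
      calc v p (t p i) * v p (z (iw i) - 1) ≤ S * δ :=
            mul_le_mul (hSle p hp i) (hzw p hp i).le (v_nonneg p _) hS0
        _ < δ * (1 + S) := by nlinarith
        _ ≤ ε := hδε
  · intro n i
    rw [hit]
    exact (hstep n).2 i
  · intro n h0
    apply hzb n
    rw [heval, h0, zero_mul]
  · intro g hg
    by_contra hne
    apply hhom0 g hne
    apply hzd
    intro n
    rw [heval, hg n, zero_mul]

end Pool.Agent.H12.ZD
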