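import Pool.Agent.H12.ZD.Tri

/-!
# Extensions by affine maps
-/

open MvPolynomial

namespace Pool.Agent.H12.ZD

/-- the orbit of `x` is Zariski dense -/
def DenseOrbit {k : Type*} [CommRing k] {N : ℕ} (f : Fin N → MvPolynomial (Fin N) k)
    (x : Fin N → k) : Prop :=
  ∀ h : MvPolynomial (Fin N) k, (∀ n : ℕ, eval ((pmap f)^[n] x) h = 0) → h = 0

/-- there is no invariant rational function `p / q` -/
def NoInv {k : Type*} [CommRing k] {N : ℕ} (f : Fin N → MvPolynomial (Fin N) k) : Prop :=
  ¬ ∃ p q : MvPolynomial (Fin N) k, q ≠ 0 ∧ (∀ c : k, p ≠ C c * q) ∧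
    aeval f p * q = aeval f q * p

section

variable {k : Type*} [Field k] {N : ℕ} {f : Fin (N + 1) → MvPolynomial (Fin (N + 1)) k}
  {f' : Fin N → MvPolynomial (Fin N) k}

theorem aeval_rename_tail (hf' : ∀ i, rename Fin.succ (f' i) = f i.succ)
    (p : MvPolynomial (Fin N) k) :
    aeval f (rename Fin.succ p) = rename Fin.succ (aeval f' p) := by
  have h : (aeval f).comp (rename Fin.succ) = (rename Fin.succ).comp (aeval f') := by
    apply algHom_ext
    intro i
    rw [AlgHom.comp_apply, AlgHom.comp_apply, rename_X, aeval_X, aeval_X, hf']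
  exact DFunLike.congr_fun h p

theorem NoInv.tail (hf' : ∀ i, rename Fin.succ (f' i) = f i.succ) (h : NoInv f) : NoInv f' := by
  rintro ⟨p, q, hq, hpq, heq⟩
  apply h
  have hinj : Function.Injective (rename (R := k) (Fin.succ : Fin N → Fin (N + 1))) :=
    rename_injective _ (Fin.succ_injective N)
  refine ⟨rename Fin.succ p, rename Fin.succ q, ?_, ?_, ?_⟩
  · intro h0
    exact hq (hinj (by rw [h0, map_zero]))
  · intro c hc
    apply hpq c
    apply hinj
    rw [hc, map_mul, rename_C]
  · rw [aeval_rename_tail hf', aeval_rename_tail hf', ← map_mul, ← map_mul, heq]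

theorem injective_tail (hf' : ∀ i, rename Fin.succ (f' i) = f i.succ)
    (h : Function.Injective (aeval f : MvPolynomial (Fin (N + 1)) k → _)) :
    Function.Injective (aeval f' : MvPolynomial (Fin N) k → _) := by
  intro p q hpq
  apply rename_injective (R := k) _ (Fin.succ_injective N)
  apply h
  rw [aeval_rename_tail hf', aeval_rename_tail hf']
  exact congrArg _ hpq

/-- pull back of polynomials by `(s, y) ↦ (f' s, F (s, y))` -/
noncomputable def pull (f' : Fin N → MvPolynomial (Fin N) k)
    (F : Polynomial (MvPolynomial (Fin N) k)) :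
    Polynomial (MvPolynomial (Fin N) k) →+* Polynomial (MvPolynomial (Fin N) k) :=
  Polynomial.eval₂RingHom (Polynomial.C.comp (aeval f').toRingHom) F

theorem pull_apply (F P : Polynomial (MvPolynomial (Fin N) k)) :
    pull f' F P = (P.map (aeval f').toRingHom).comp F := by
  rw [pull, Polynomial.coe_eval₂RingHom, Polynomial.comp, Polynomial.eval₂_map]

theorem finSuccEquiv_rename_succ (q : MvPolynomial (Fin N) k) :
    finSuccEquiv k N (rename Fin.succ q) = Polynomial.C q := by
  induction q using MvPolynomial.induction_on with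
  | C a => rw [rename_C, finSuccEquiv_apply]; simp
  | add p q hp hq => rw [map_add, map_add, hp, hq, map_add]
  | mul_X p i hp => rw [map_mul, map_mul, hp, rename_X, finSuccEquiv_X_succ, map_mul]

theorem finSuccEquiv_aeval (hf' : ∀ i, rename Fin.succ (f' i) = f i.succ)
    (h : MvPolynomial (Fin (N + 1)) k) :
    finSuccEquiv k N (aeval f h) = pull f' (finSuccEquiv k N (f 0)) (finSuccEquiv k N h) := by
  induction h using MvPolynomial.induction_on with
  | C a =>
    rw [aeval_C, algebraMap_eq, pull_apply]
    have : finSuccEquiv k N (C a) = Polynomial.C (C a) := by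
      rw [finSuccEquiv_apply]; simp
    rw [this, Polynomial.map_C, Polynomial.C_comp]
    simp
  | add p q hp hq => rw [map_add, map_add, hp, hq, map_add, map_add]
  | mul_X p i hp =>
    rw [map_mul, map_mul, hp, map_mul, map_mul]
    congr 1
    refine Fin.cases ?_ (fun j => ?_) i
    · rw [aeval_X, finSuccEquiv_X_zero, pull_apply, Polynomial.map_X, Polynomial.X_comp]
    · rw [aeval_X, finSuccEquiv_X_succ, pull_apply, Polynomial.map_C, Polynomial.C_comp, ← hf' j]
      have h1 : ∀ q : MvPolynomial (Fin N) k, finSuccEquiv k N (rename Fin.succ q) =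
          Polynomial.C q := by
        intro q
        exact finSuccEquiv_rename_succ q
      rw [h1]
      simp

theorem eval_pull (F P : Polynomial (MvPolynomial (Fin N) k)) (s : Fin N → k) (y : k) :
    ((pull f' F P).map (eval s)).eval y =
      (P.map (eval (pmap f' s))).eval ((F.map (eval s)).eval y) := by
  rw [pull_apply, Polynomial.map_comp, Polynomial.eval_comp, Polynomial.map_map]
  have h1 : (eval s).comp (aeval f').toRingHom = eval (pmap f' s) := by
    apply MvPolynomial.ringHom_ext
    · intro a; simp
    · intro i; simp [pmap]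
  rw [h1]

end

end Pool.Agent.H12.ZD
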