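import Pool.Agent.H12.ZD.Poly2

/-!
# Places of the field of algebraic numbers
-/

open Polynomial Function

namespace Pool.Agent.H12.ZD

instance (p : Nat.Primes) : Fact (p : ℕ).Prime := ⟨p.2⟩

instance instIsAlgebraicRat : Algebra.IsAlgebraic ℚ (AlgebraicClosure ℚ) := by
  have h : (DivisionRing.toRatAlgebra : Algebra ℚ (AlgebraicClosure ℚ)) =
      AlgebraicClosure.instAlgebra ℚ := Subsingleton.elim _ _
  rw [h]
  exact AlgebraicClosure.isAlgebraic ℚ

/-- an embedding into the algebraic closure of `ℚ_p` -/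
noncomputable def emb (p : Nat.Primes) : AlgebraicClosure ℚ →+* PadicAlgCl p :=
  (IsAlgClosed.lift : AlgebraicClosure ℚ →ₐ[ℚ] PadicAlgCl p).toRingHom

/-- the `p`-adic absolute value on the algebraic numbers (for the chosen embedding) -/
noncomputable def v (p : Nat.Primes) (x : AlgebraicClosure ℚ) : ℝ := ‖emb p x‖

variable (p : Nat.Primes)

theorem v_nonneg (x : AlgebraicClosure ℚ) : 0 ≤ v p x := norm_nonneg _
@[simp] theorem v_zero : v p 0 = 0 := by simp [v]
@[simp] theorem v_one : v p 1 = 1 := by simp [v]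
@[simp] theorem v_neg (x : AlgebraicClosure ℚ) : v p (-x) = v p x := by simp [v]
theorem v_mul (x y : AlgebraicClosure ℚ) : v p (x * y) = v p x * v p y := by simp [v]
theorem v_pow (x : AlgebraicClosure ℚ) (n : ℕ) : v p (x ^ n) = v p x ^ n := by simp [v]
theorem v_inv (x : AlgebraicClosure ℚ) : v p (x⁻¹) = (v p x)⁻¹ := by simp [v]
theorem v_eq_zero {x : (AlgebraicClosure ℚ)} : v p x = 0 ↔ x = 0 := by simp [v]
theorem v_pos {x : (AlgebraicClosure ℚ)} : 0 < v p x ↔ x ≠ 0 := by simp [v]
theorem v_sub_comm (x y : AlgebraicClosure ℚ) : v p (x - y) = v p (y - x) := by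
  rw [← v_neg, neg_sub]

theorem v_add_le (x y : AlgebraicClosure ℚ) : v p (x + y) ≤ max (v p x) (v p y) := by
  simp only [v, map_add]
  exact IsUltrametricDist.norm_add_le_max _ _

theorem v_sub_le (x y : AlgebraicClosure ℚ) : v p (x - y) ≤ max (v p x) (v p y) := by
  rw [sub_eq_add_neg]
  refine (v_add_le p _ _).trans ?_
  rw [v_neg]

theorem v_add_lt {x y : (AlgebraicClosure ℚ)} {ε : ℝ} (hx : v p x < ε) (hy : v p y < ε) : v p (x + y) < ε :=
  (v_add_le p x y).trans_lt (max_lt hx hy)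

theorem v_sub_lt {x y : (AlgebraicClosure ℚ)} {ε : ℝ} (hx : v p x < ε) (hy : v p y < ε) : v p (x - y) < ε :=
  (v_sub_le p x y).trans_lt (max_lt hx hy)

theorem v_add_le' {x y : (AlgebraicClosure ℚ)} {ε : ℝ} (hx : v p x ≤ ε) (hy : v p y ≤ ε) : v p (x + y) ≤ ε :=
  (v_add_le p x y).trans (max_le hx hy)

theorem v_sub_le' {x y : (AlgebraicClosure ℚ)} {ε : ℝ} (hx : v p x ≤ ε) (hy : v p y ≤ ε) : v p (x - y) ≤ ε :=
  (v_sub_le p x y).trans (max_le hx hy)

theorem v_sum_le {ι : Type*} (s : Finset ι) (x : ι → (AlgebraicClosure ℚ)) {ε : ℝ} (hε : 0 ≤ ε)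
    (h : ∀ i ∈ s, v p (x i) ≤ ε) : v p (∑ i ∈ s, x i) ≤ ε := by
  classical
  induction s using Finset.induction_on with
  | empty => simpa using hε
  | insert i s hi ih =>
    rw [Finset.sum_insert hi]
    exact v_add_le' p (h i (Finset.mem_insert_self i s))
      (ih fun j hj => h j (Finset.mem_insert_of_mem hj))

theorem v_sum_lt {ι : Type*} (s : Finset ι) (x : ι → (AlgebraicClosure ℚ)) {ε : ℝ} (hε : 0 < ε)
    (h : ∀ i ∈ s, v p (x i) < ε) : v p (∑ i ∈ s, x i) < ε := by
  classical
  induction s using Finset.induction_on with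
  | empty => simpa using hε
  | insert i s hi ih =>
    rw [Finset.sum_insert hi]
    exact v_add_lt p (h i (Finset.mem_insert_self i s))
      (ih fun j hj => h j (Finset.mem_insert_of_mem hj))

/-- if `x` is close to `y` compared with `v y` then `v x = v y` -/
theorem v_eq_of_sub_lt {x y : (AlgebraicClosure ℚ)} (h : v p (x - y) < v p y) : v p x = v p y := by
  apply le_antisymm
  · have : x = (x - y) + y := by ring
    rw [this]
    exact v_add_le' p h.le le_rfl
  · by_contra hlt
    rw [not_le] at hlt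
    have h1 : v p y < v p y := by
      have h2 : y = x - (x - y) := by ring
      calc v p y = v p (x - (x - y)) := by rw [← h2]
        _ < v p y := v_sub_lt p hlt h
    exact lt_irrefl _ h1

theorem v_intCast (n : ℤ) : v p (n : AlgebraicClosure ℚ) = ‖(n : ℚ_[p])‖ := by
  rw [v, map_intCast]
  have : ((n : ℚ_[p]) : PadicAlgCl p) = (n : PadicAlgCl p) := by
    exact map_intCast (algebraMap ℚ_[p] (PadicAlgCl p)) n
  rw [← this, PadicAlgCl.norm_extends]

theorem v_natCast (n : ℕ) : v p (n : AlgebraicClosure ℚ) = ‖(n : ℚ_[p])‖ := by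
  have := v_intCast p n
  simpa using this

theorem v_intCast_le (n : ℤ) : v p (n : AlgebraicClosure ℚ) ≤ 1 := by
  rw [v_intCast]
  exact Padic.norm_int_le_one n

theorem v_natCast_le (n : ℕ) : v p (n : AlgebraicClosure ℚ) ≤ 1 := by
  rw [v_natCast]
  exact_mod_cast Padic.norm_int_le_one (p := p) (n : ℤ)

theorem v_self : v p ((p : ℕ) : AlgebraicClosure ℚ) = ((p : ℕ) : ℝ)⁻¹ := by
  rw [v_natCast]
  exact Padic.norm_p

theorem v_self_lt : v p ((p : ℕ) : AlgebraicClosure ℚ) < 1 := by
  rw [v_self]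
  exact inv_lt_one_of_one_lt₀ (by exact_mod_cast p.2.one_lt)

theorem v_natCast_lt {n : ℕ} (h : (p : ℕ) ∣ n) : v p (n : AlgebraicClosure ℚ) < 1 := by
  rw [v_natCast]
  exact (Padic.norm_natCast_lt_one_iff).mpr h

theorem v_natCast_eq {n : ℕ} (h : ¬ (p : ℕ) ∣ n) : v p (n : AlgebraicClosure ℚ) = 1 := by
  rw [v_natCast]
  exact (Padic.norm_natCast_eq_one_iff).mpr (((p.2.coprime_iff_not_dvd).mpr h))

/-- algebraic integers have absolute value at most one -/
theorem v_le_one_of_isIntegral {x : (AlgebraicClosure ℚ)} (hx : IsIntegral ℤ x) : v p x ≤ 1 := by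
  obtain ⟨P, hP, hPx⟩ := hx
  by_contra hlt
  rw [not_le] at hlt
  have hx0 : 0 < v p x := by linarith
  have h1 : x ^ P.natDegree = - ∑ i ∈ Finset.range P.natDegree, (P.coeff i : AlgebraicClosure ℚ) * x ^ i := by
    rw [eval₂_eq_sum_range, Finset.sum_range_succ, hP.coeff_natDegree] at hPx
    simp only [eq_intCast, Int.cast_one, one_mul] at hPx
    linear_combination hPx
  have h2 : v p x ^ P.natDegree < v p x ^ P.natDegree := by
    calc v p x ^ P.natDegree = v p (x ^ P.natDegree) := (v_pow p x _).symm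
      _ = v p (∑ i ∈ Finset.range P.natDegree, (P.coeff i : AlgebraicClosure ℚ) * x ^ i) := by rw [h1, v_neg]
      _ < v p x ^ P.natDegree := by
        apply v_sum_lt p _ _ (by positivity)
        intro i hi
        rw [v_mul, v_pow]
        calc v p (P.coeff i : AlgebraicClosure ℚ) * v p x ^ i ≤ 1 * v p x ^ i :=
              mul_le_mul_of_nonneg_right (v_intCast_le p _) (by positivity)
          _ = v p x ^ i := one_mul _
          _ < v p x ^ P.natDegree :=
              pow_lt_pow_right₀ hlt (Finset.mem_range.mp hi)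
  exact lt_irrefl _ h2

/-- every algebraic number is integral at almost all places -/
theorem exists_bound_le (x : AlgebraicClosure ℚ) : ∃ M : ℕ, ∀ p : Nat.Primes, M < p → v p x ≤ 1 := by
  have hx : IsAlgebraic ℤ x := by
    have : IsAlgebraic ℚ x := Algebra.IsAlgebraic.isAlgebraic x
    exact (IsFractionRing.isAlgebraic_iff ℤ ℚ (AlgebraicClosure ℚ)).mpr this
  obtain ⟨y, hy0, hy⟩ := hx.exists_integral_multiple
  refine ⟨y.natAbs, fun p hp => ?_⟩
  have h1 : v p (y • x) ≤ 1 := v_le_one_of_isIntegral p hy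
  have h2 : v p (y : AlgebraicClosure ℚ) = 1 := by
    have h3 : ¬ (p : ℕ) ∣ y.natAbs := fun h =>
      absurd (Nat.le_of_dvd (Int.natAbs_pos.mpr hy0) h) (by omega)
    have h4 := v_natCast_eq p h3
    rcases Int.natAbs_eq y with h5 | h5
    · rw [h5, Int.cast_natCast]; exact h4
    · rw [h5, Int.cast_neg, Int.cast_natCast, v_neg]; exact h4
  rw [zsmul_eq_mul, v_mul, h2, one_mul] at h1
  exact h1

/-- a finite set of algebraic numbers is integral at almost all places -/
theorem exists_bound_finset (S : Finset (AlgebraicClosure ℚ)) : ∃ M : ℕ, ∀ p : Nat.Primes, M < p →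
    ∀ x ∈ S, v p x ≤ 1 := by
  classical
  choose M hM using exists_bound_le
  refine ⟨S.sup M, fun p hp x hx => hM x p ?_⟩
  exact lt_of_le_of_lt (Finset.le_sup hx) hp

/-- a nonzero algebraic number is a unit at almost all places -/
theorem exists_bound_eq {x : (AlgebraicClosure ℚ)} (hx : x ≠ 0) : ∃ M : ℕ, ∀ p : Nat.Primes, M < p → v p x = 1 := by
  obtain ⟨M₁, h₁⟩ := exists_bound_le x
  obtain ⟨M₂, h₂⟩ := exists_bound_le x⁻¹
  refine ⟨max M₁ M₂, fun p hp => ?_⟩
  have h3 := h₁ p (lt_of_le_of_lt (le_max_left _ _) hp)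
  have h4 := h₂ p (lt_of_le_of_lt (le_max_right _ _) hp)
  rw [v_inv] at h4
  apply le_antisymm h3
  exact (inv_le_one₀ ((v_pos p).mpr hx)).mp h4

end Pool.Agent.H12.ZD
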