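import Mathlib

/-!
# Periodic points of one polynomial that avoid a finite set
-/

open Polynomial Function

namespace Pool.Agent.H12.ZD

variable {κ : Type*} [Field κ]

/-- the derivative of an iterate at a fixed point -/
theorem eval_derivative_iterate (p : κ[X]) {s : κ} (hs : p.eval s = s) (m : ℕ) :
    (derivative (p.comp^[m] X)).eval s = (p.derivative.eval s) ^ m := by
  induction m with
  | zero => simp
  | succ m ih =>
    have h : (p.comp^[m] X).eval s = s := by
      rw [iterate_comp_eval, eval_X]
      exact Function.iterate_fixed hs m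
    rw [Function.iterate_succ_apply', derivative_comp, eval_mul, eval_comp, ih, h, pow_succ]

/-- `H ∘ H - X = (H - X) * u` with `u` congruent to `2 + (H - X)'` modulo `H - X`. -/
theorem comp_self_sub (H : κ[X]) : ∃ u r : κ[X], H.comp H - X = (H - X) * u ∧
    u = 2 + derivative (H - X) + (H - X) * r := by
  set δ := H - X with hδ
  have hH : H = X + δ := by rw [hδ]; ring
  have h1 : δ.comp H = H.comp H - H := by
    rw [hδ, sub_comp, X_comp]
  -- Taylor expansion of `δ (X + δ)`
  obtain ⟨r, hr⟩ := (δ.map C).binomExpansion (X : κ[X]) δ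
  refine ⟨2 + derivative δ + δ * r, r, ?_, rfl⟩
  have h2 : (δ.map C).eval (X + δ) = δ.comp H := by
    rw [eval_map, ← hH]; rfl
  have h3 : (δ.map C).eval X = δ := by
    rw [eval_map, eval₂_C_X]
  have h4 : (derivative (δ.map C)).eval X = derivative δ := by
    rw [derivative_map, eval_map, eval₂_C_X]
  rw [h2, h3, h4, h1] at hr
  have h5 : H.comp H = H + (δ + derivative δ * δ + r * δ ^ 2) := by
    rw [← hr]; ring
  rw [h5]
  nth_rewrite 1 [hH]
  ring

variable [IsAlgClosed κ]

/-- A polynomial of degree at least two over an algebraically closed field of characteristic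
different from two has a periodic point whose orbit avoids the zeros of a given nonzero
polynomial. -/
theorem exists_periodic_of_two_le (h2 : (2 : κ) ≠ 0) (G h : κ[X]) (hG : 2 ≤ G.natDegree)
    (hh : h ≠ 0) : ∃ (y : κ) (r : ℕ), 1 ≤ r ∧ (fun z => G.eval z)^[r] y = y ∧
      ∀ t, h.eval ((fun z => G.eval z)^[t] y) ≠ 0 := by
  classical
  by_contra hcon
  push Not at hcon
  set g : κ → κ := fun z => G.eval z with hg
  -- the periodic roots of `h`
  let E : Finset κ := h.roots.toFinset.filter fun e => e ∈ periodicPts g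
  let L : ℕ := ∏ e ∈ E, minimalPeriod g e
  have hL : 1 ≤ L := by
    apply Nat.one_le_iff_ne_zero.mpr
    rw [Finset.prod_ne_zero_iff]
    intro e he
    exact (minimalPeriod_pos_of_mem_periodicPts (Finset.mem_filter.mp he).2).ne'
  -- all periodic points are fixed by `g^[L]`
  have hfix : ∀ y, y ∈ periodicPts g → g^[L] y = y := by
    rintro y ⟨r, hr, hy⟩
    obtain ⟨t, ht⟩ := hcon y r hr hy
    have hper : g^[t] y ∈ periodicPts g := by
      refine ⟨r, hr, ?_⟩
      exact hy.apply_iterate t
    have he : g^[t] y ∈ E := by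
      rw [Finset.mem_filter, Multiset.mem_toFinset, mem_roots hh]
      exact ⟨ht, hper⟩
    have hmin : minimalPeriod g (g^[t] y) = minimalPeriod g y :=
      minimalPeriod_apply_iterate ⟨r, hr, hy⟩ t
    have hdvd : minimalPeriod g y ∣ L := by
      rw [← hmin]
      exact Finset.dvd_prod_of_mem (fun e => minimalPeriod g e) he
    exact (isPeriodicPt_minimalPeriod g y).trans_dvd hdvd
  set H₀ : κ[X] := G.comp^[L] X with hH₀
  have hH₀eval : ∀ z, H₀.eval z = g^[L] z := by
    intro z
    rw [hH₀, iterate_comp_eval, eval_X]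
  have hH₀deg : 2 ≤ H₀.natDegree := by
    rw [hH₀, natDegree_iterate_comp, natDegree_X, mul_one]
    calc 2 ≤ G.natDegree := hG
      _ = G.natDegree ^ 1 := (pow_one _).symm
      _ ≤ G.natDegree ^ L := Nat.pow_le_pow_right (by omega) hL
  have hne : H₀ - X ≠ 0 := by
    intro h0
    have : H₀ = X := sub_eq_zero.mp h0
    rw [this, natDegree_X] at hH₀deg
    omega
  -- choose the exponent
  let F : Finset κ := (H₀ - X).roots.toFinset
  let ms : κ → ℕ := fun s =>
    if hs : ∃ j : ℕ, 1 ≤ j ∧ (H₀.derivative.eval s) ^ j = -1 then 2 * hs.choose else 1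
  have hms : ∀ s, 1 ≤ ms s := by
    intro s
    simp only [ms]
    split_ifs with hs
    · have := hs.choose_spec.1
      omega
    · exact le_refl 1
  let m : ℕ := ∏ s ∈ F, ms s
  have hm : 1 ≤ m := Finset.one_le_prod' fun s _ => hms s
  have hmult : ∀ s ∈ F, (H₀.derivative.eval s) ^ m ≠ -1 := by
    intro s hs
    by_cases hj : ∃ j : ℕ, 1 ≤ j ∧ (H₀.derivative.eval s) ^ j = -1
    · have h1 : (H₀.derivative.eval s) ^ (ms s) = 1 := by
        simp only [ms, dif_pos hj]
        rw [mul_comm, pow_mul, hj.choose_spec.2]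
        norm_num
      obtain ⟨c, hc⟩ : ms s ∣ m := Finset.dvd_prod_of_mem ms hs
      rw [hc, pow_mul, h1, one_pow]
      intro h3
      apply h2
      have : (1 : κ) + 1 = 0 := by
        nth_rewrite 1 [h3]
        ring
      rw [← this]; norm_num
    · push Not at hj
      exact hj m hm
  set H : κ[X] := H₀.comp^[m] X with hH
  have hHeval : ∀ z, H.eval z = (fun z => H₀.eval z)^[m] z := by
    intro z
    rw [hH, iterate_comp_eval, eval_X]
  have hHdeg : 2 ≤ H.natDegree := by
    rw [hH, natDegree_iterate_comp, natDegree_X, mul_one]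
    calc 2 ≤ H₀.natDegree := hH₀deg
      _ = H₀.natDegree ^ 1 := (pow_one _).symm
      _ ≤ H₀.natDegree ^ m := Nat.pow_le_pow_right (by omega) hm
  obtain ⟨u, r, hu, hur⟩ := comp_self_sub H
  -- `u` is not constant
  have hHX : (H - X).natDegree = H.natDegree := by
    apply natDegree_sub_eq_left_of_natDegree_lt
    rw [natDegree_X]; omega
  have hHHX : (H.comp H - X).natDegree = H.natDegree * H.natDegree := by
    rw [natDegree_sub_eq_left_of_natDegree_lt]
    · rw [natDegree_comp]
    · rw [natDegree_X, natDegree_comp]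
      nlinarith
  have hHX0 : H - X ≠ 0 := by
    intro h0
    rw [h0, natDegree_zero] at hHX
    omega
  have hu0 : u ≠ 0 := by
    intro h0
    rw [h0, mul_zero] at hu
    rw [hu, natDegree_zero] at hHHX
    nlinarith
  have hudeg : 0 < u.natDegree := by
    have h3 : (H.comp H - X).natDegree = (H - X).natDegree + u.natDegree := by
      rw [hu, natDegree_mul hHX0 hu0]
    rw [hHX, hHHX] at h3
    nlinarith
  obtain ⟨z, hz⟩ := IsAlgClosed.exists_root u (by
    rw [degree_eq_natDegree hu0]
    exact_mod_cast hudeg.ne')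
  rw [IsRoot.def] at hz
  have hz2 : H.eval (H.eval z) = z := by
    have h3 : (H.comp H - X).eval z = 0 := by rw [hu, eval_mul, hz, mul_zero]
    rw [eval_sub, eval_comp, eval_X] at h3
    exact sub_eq_zero.mp h3
  -- `z` is periodic
  have hHg : ∀ z, H.eval z = g^[L * m] z := by
    intro z
    rw [hHeval, Function.iterate_mul]
    congr 1
    ext w
    exact hH₀eval w
  have hzper : z ∈ periodicPts g := by
    refine ⟨L * m + L * m, by positivity, ?_⟩
    change g^[L * m + L * m] z = z
    rw [Function.iterate_add_apply, ← hHg, ← hHg, hz2]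
  have hzfix : H₀.eval z = z := by
    rw [hH₀eval]; exact hfix z hzper
  have hzF : z ∈ F := by
    rw [Multiset.mem_toFinset, mem_roots hne, IsRoot.def, eval_sub, hzfix, eval_X, sub_self]
  have hHz : H.eval z = z := by
    rw [hHeval]
    exact Function.iterate_fixed hzfix m
  have hder : (derivative H).eval z = (H₀.derivative.eval z) ^ m :=
    eval_derivative_iterate H₀ hzfix m
  have h5 : u.eval z = 1 + (H₀.derivative.eval z) ^ m := by
    rw [hur, eval_add, eval_add, eval_mul, eval_sub, eval_X, hHz, sub_self, zero_mul, add_zero,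
      derivative_sub, derivative_X, eval_sub, eval_one, hder, eval_ofNat]
    ring
  rw [hz] at h5
  apply hmult z hzF
  linear_combination -h5

end Pool.Agent.H12.ZD
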