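import Pool.Agent.H12.ZD.Poly1

/-!
# Periodic points of polynomials over algebraic closures of finite fields
-/

open Polynomial Function

namespace Pool.Agent.H12.ZD

variable {κ : Type*} [Field κ]

theorem comp_iterate_linear (a b : κ) (t : ℕ) :
    ((C a * X + C b).comp^[t] X) = C (a ^ t) * X + C (b * ∑ i ∈ Finset.range t, a ^ i) := by
  induction t with
  | zero => simp
  | succ t ih =>
    rw [Function.iterate_succ_apply', ih, add_comp, mul_comp, C_comp, C_comp, X_comp,
      Finset.sum_range_succ', pow_succ]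
    have h : b * (∑ i ∈ Finset.range t, a ^ (i + 1) + a ^ 0) =
        a * (b * ∑ i ∈ Finset.range t, a ^ i) + b := by
      have : ∑ i ∈ Finset.range t, a ^ (i + 1) = a * ∑ i ∈ Finset.range t, a ^ i := by
        rw [Finset.mul_sum]
        exact Finset.sum_congr rfl fun i _ => by rw [pow_succ]; ring
      rw [this]; ring
    rw [h]
    simp only [C_add, C_mul]
    ring

/-- an invertible affine map over an algebraic closure of a finite field has finite order -/
theorem exists_iterate_eq_X {p : ℕ} (hp : 1 ≤ p) (hpκ : (p : κ) = 0)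
    (hfin : ∀ a : κ, a ≠ 0 → ∃ n : ℕ, 1 ≤ n ∧ a ^ n = 1) {a : κ} (ha : a ≠ 0) (b : κ) :
    ∃ R : ℕ, 1 ≤ R ∧ ((C a * X + C b).comp^[R] X) = X := by
  obtain ⟨n, hn, han⟩ := hfin a ha
  refine ⟨p * n, Nat.one_le_iff_ne_zero.mpr (by positivity), ?_⟩
  rw [comp_iterate_linear]
  have h1 : a ^ (p * n) = 1 := by rw [mul_comm, pow_mul, han, one_pow]
  have h2 : ∑ i ∈ Finset.range (p * n), a ^ i = 0 := by
    by_cases ha1 : a = 1
    · subst ha1
      simp only [one_pow, Finset.sum_const, Finset.card_range, nsmul_eq_mul, mul_one]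
      rw [Nat.cast_mul, hpκ, zero_mul]
    · have h3 := mul_geom_sum a (p * n)
      rw [h1, sub_self] at h3
      rcases mul_eq_zero.mp h3 with h4 | h4
      · exact absurd (sub_eq_zero.mp h4) ha1
      · exact h4
  rw [h1, h2, mul_zero]
  simp

theorem comp_ne_zero_of_natDegree_pos {P Q : κ[X]} (hP : P ≠ 0) (hQ : 0 < Q.natDegree) :
    P.comp Q ≠ 0 := by
  intro h
  rw [Polynomial.comp_eq_zero_iff] at h
  rcases h with h | ⟨_, h⟩
  · exact hP h
  · rw [h, natDegree_C] at hQ
    exact absurd hQ (lt_irrefl 0)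

variable [IsAlgClosed κ]

/-- Over an algebraic closure of a finite field of odd characteristic every nonconstant polynomial
has a periodic point whose orbit avoids the zeros of a given nonzero polynomial. -/
theorem exists_periodic {p : ℕ} (hp : 1 ≤ p) (hpκ : (p : κ) = 0) (h2 : (2 : κ) ≠ 0)
    (hfin : ∀ a : κ, a ≠ 0 → ∃ n : ℕ, 1 ≤ n ∧ a ^ n = 1) (G h : κ[X]) (hG : 1 ≤ G.natDegree)
    (hh : h ≠ 0) : ∃ (y : κ) (r : ℕ), 1 ≤ r ∧ (fun z => G.eval z)^[r] y = y ∧
      ∀ t, h.eval ((fun z => G.eval z)^[t] y) ≠ 0 := by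
  classical
  rcases Nat.lt_or_ge G.natDegree 2 with h1 | h1
  · -- the affine case
    have hG1 : G.natDegree = 1 := by omega
    obtain ⟨a, ha, b, hab⟩ := natDegree_eq_one.mp hG1
    obtain ⟨R, hR, hRX⟩ := exists_iterate_eq_X hp hpκ hfin ha b
    rw [hab] at hRX
    have hGdeg : ∀ t, 0 < (G.comp^[t] X).natDegree := by
      intro t
      rw [natDegree_iterate_comp, natDegree_X, mul_one, hG1, one_pow]
      exact one_pos
    have hprod : (∏ t ∈ Finset.range R, h.comp (G.comp^[t] X)) ≠ 0 := by
      rw [Finset.prod_ne_zero_iff]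
      intro t _
      exact comp_ne_zero_of_natDegree_pos hh (hGdeg t)
    have : Infinite κ := IsAlgClosed.instInfinite
    obtain ⟨y, hy⟩ : ∃ y, (∏ t ∈ Finset.range R, h.comp (G.comp^[t] X)).eval y ≠ 0 := by
      by_contra hcon
      push Not at hcon
      exact hprod (Polynomial.funext fun z => by rw [hcon z, eval_zero])
    have hper : (fun z => G.eval z)^[R] y = y := by
      have h3 : (G.comp^[R] X).eval y = (fun z => G.eval z)^[R] y := by
        rw [iterate_comp_eval, eval_X]
      rw [← h3, hRX, eval_X]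
    refine ⟨y, R, hR, hper, ?_⟩
    intro t
    have h4 : (fun z => G.eval z)^[t] y = (fun z => G.eval z)^[t % R] y := by
      nth_rewrite 1 [← Nat.mod_add_div t R]
      rw [Function.iterate_add_apply, Function.iterate_mul]
      rw [Function.iterate_fixed hper]
    rw [h4]
    rw [eval_prod, Finset.prod_ne_zero_iff] at hy
    have h5 := hy (t % R) (Finset.mem_range.mpr (Nat.mod_lt _ hR))
    rwa [eval_comp, iterate_comp_eval, eval_X] at h5
  · exact exists_periodic_of_two_le h2 G h h1 hh

end Pool.Agent.H12.ZD
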