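import Pool.Agent.H12.ZD.Place

/-!
# A pigeonhole principle for integral points over a number field
-/

open Polynomial Function Module

namespace Pool.Agent.H12.ZD

variable (p : Nat.Primes)

/-- the `ℚ_p`-span of a number field is finite-dimensional -/
theorem finiteDimensional_span (K : IntermediateField ℚ (AlgebraicClosure ℚ)) [FiniteDimensional ℚ K] :
    FiniteDimensional ℚ_[p] (Submodule.span ℚ_[p] (emb p '' (K : Set (AlgebraicClosure ℚ)))) := by
  let b := Module.finBasis ℚ K
  have hle : Submodule.span ℚ_[p] (emb p '' (K : Set (AlgebraicClosure ℚ))) ≤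
      Submodule.span ℚ_[p] (Set.range fun i => emb p (b i : AlgebraicClosure ℚ)) := by
    rw [Submodule.span_le]
    rintro _ ⟨x, hx, rfl⟩
    have h1 : (⟨x, hx⟩ : K) = ∑ i, b.repr ⟨x, hx⟩ i • b i := (b.sum_repr _).symm
    have h2 : x = ∑ i, algebraMap ℚ (AlgebraicClosure ℚ) (b.repr ⟨x, hx⟩ i) * (b i : AlgebraicClosure ℚ) := by
      have := congrArg (fun z : K => (z : AlgebraicClosure ℚ)) h1
      simp only [IntermediateField.coe_sum, Algebra.smul_def] at this
      exact this
    rw [h2, map_sum]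
    apply Submodule.sum_mem
    intro i _
    rw [map_mul]
    have h3 : emb p (algebraMap ℚ (AlgebraicClosure ℚ) (b.repr ⟨x, hx⟩ i)) =
        algebraMap ℚ_[p] (PadicAlgCl p) ((b.repr ⟨x, hx⟩ i : ℚ) : ℚ_[p]) := by
      rw [eq_ratCast, map_ratCast, map_ratCast]
    rw [h3, ← Algebra.smul_def]
    exact Submodule.smul_mem _ _ (Submodule.subset_span ⟨i, rfl⟩)
  have hfin : FiniteDimensional ℚ_[p]
      (Submodule.span ℚ_[p] (Set.range fun i => emb p (b i : AlgebraicClosure ℚ))) :=
    FiniteDimensional.span_of_finite ℚ_[p] (Set.finite_range _)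
  exact Submodule.finiteDimensional_of_le hle

/-- Among infinitely many integral points over a number field two are close to each other. -/
theorem exists_close {ι : Type} [Fintype ι] (K : IntermediateField ℚ (AlgebraicClosure ℚ)) [FiniteDimensional ℚ K]
    (x : ℕ → ι → (AlgebraicClosure ℚ)) (hK : ∀ n i, x n i ∈ K) (hx : ∀ n i, v p (x n i) ≤ 1) {ε : ℝ} (hε : 0 < ε) :
    ∃ i j : ℕ, i < j ∧ ∀ l, v p (x i l - x j l) < ε := by
  set W := Submodule.span ℚ_[p] (emb p '' (K : Set (AlgebraicClosure ℚ))) with hW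
  have hfin : FiniteDimensional ℚ_[p] W := finiteDimensional_span p K
  have hproper : ProperSpace W := FiniteDimensional.proper ℚ_[p] W
  let y : ℕ → ι → W := fun n i => ⟨emb p (x n i), Submodule.subset_span ⟨x n i, hK n i, rfl⟩⟩
  have hy : ∀ n, y n ∈ Metric.closedBall (0 : ι → W) 1 := by
    intro n
    rw [mem_closedBall_zero_iff, pi_norm_le_iff_of_nonneg zero_le_one]
    intro i
    exact hx n i
  obtain ⟨a, -, φ, hφ, hlim⟩ := (isCompact_closedBall (0 : ι → W) 1).tendsto_subseq hy
  rw [Metric.tendsto_atTop] at hlim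
  obtain ⟨M, hM⟩ := hlim (ε / 2) (by linarith)
  refine ⟨φ M, φ (M + 1), hφ (Nat.lt_succ_self M), ?_⟩
  intro l
  have h1 := hM M le_rfl
  have h2 := hM (M + 1) (Nat.le_succ M)
  have h3 : dist (y (φ M)) (y (φ (M + 1))) < ε := by
    calc dist (y (φ M)) (y (φ (M + 1))) ≤ dist (y (φ M)) a + dist a (y (φ (M + 1))) :=
          dist_triangle _ _ _
      _ < ε / 2 + ε / 2 := add_lt_add h1 (by rw [dist_comm]; exact h2)
      _ = ε := by ring
  have h4 : dist (y (φ M) l) (y (φ (M + 1)) l) < ε := (dist_le_pi_dist _ _ l).trans_lt h3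
  rw [dist_eq_norm] at h4
  calc v p (x (φ M) l - x (φ (M + 1)) l) = ‖y (φ M) l - y (φ (M + 1)) l‖ := by
        rw [v, map_sub]; rfl
    _ < ε := h4

/-- units have finite order modulo the maximal ideal -/
theorem exists_pow_close {x : (AlgebraicClosure ℚ)} (hx : v p x = 1) : ∃ n : ℕ, 1 ≤ n ∧ v p (x ^ n - 1) < 1 := by
  have halg : IsIntegral ℚ x := (Algebra.IsAlgebraic.isAlgebraic (R := ℚ) x).isIntegral
  have : FiniteDimensional ℚ (IntermediateField.adjoin ℚ {x}) :=
    IntermediateField.adjoin.finiteDimensional halg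
  obtain ⟨i, j, hij, h⟩ := exists_close p (ι := Unit) (IntermediateField.adjoin ℚ {x})
    (fun n _ => x ^ n)
    (fun n _ => pow_mem (IntermediateField.mem_adjoin_simple_self ℚ x) n)
    (fun n _ => by rw [v_pow, hx, one_pow]) one_pos
  refine ⟨j - i, by omega, ?_⟩
  have h1 := h ()
  have h2 : x ^ i - x ^ j = - (x ^ i * (x ^ (j - i) - 1)) := by
    have : x ^ j = x ^ i * x ^ (j - i) := by rw [← pow_add]; congr 1; omega
    rw [this]; ring
  rwa [h2, v_neg, v_mul, v_pow, hx, one_pow, one_mul] at h1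

end Pool.Agent.H12.ZD
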