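import Pool.Agent.H12.ZD.Poly2

/-!
# Triangular polynomial maps
-/

open MvPolynomial

namespace Pool.Agent.H12.ZD

section basic

variable {R : Type*} [CommRing R] {N : ℕ}

/-- the self-map of affine space given by a tuple of polynomials -/
noncomputable def pmap (f : Fin N → MvPolynomial (Fin N) R) (x : Fin N → R) : Fin N → R :=
  fun i => eval x (f i)

/-- `f i` involves only the variables `x_j` with `j ≥ i` -/
def Tri (f : Fin N → MvPolynomial (Fin N) R) : Prop := ∀ i, ∀ j ∈ (f i).vars, i ≤ j

theorem Tri.exists_tail {f : Fin (N + 1) → MvPolynomial (Fin (N + 1)) R} (h : Tri f) :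
    ∃ f' : Fin N → MvPolynomial (Fin N) R, Tri f' ∧ ∀ i, rename Fin.succ (f' i) = f i.succ := by
  classical
  have h1 : ∀ i : Fin N, ∃ q : MvPolynomial (Fin N) R, rename Fin.succ q = f i.succ := by
    intro i
    apply exists_rename_eq_of_vars_subset_range _ _ (Fin.succ_injective N)
    intro j hj
    have h2 := h i.succ j (by simpa using hj)
    rw [Set.mem_range]
    refine ⟨j.pred ?_, Fin.succ_pred _ _⟩
    intro h0
    rw [h0] at h2
    exact absurd h2 (not_le.mpr (Fin.succ_pos i))
  choose f' hf' using h1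
  refine ⟨f', ?_, hf'⟩
  intro i j hj
  have h2 : j.succ ∈ (f i.succ).vars := by
    rw [vars_def, Multiset.mem_toFinset] at hj ⊢
    rw [← hf' i, degrees_rename_of_injective (Fin.succ_injective N)]
    exact Multiset.mem_map_of_mem _ hj
  exact Fin.succ_le_succ_iff.mp (h i.succ j.succ h2)

theorem pmap_cons {f : Fin (N + 1) → MvPolynomial (Fin (N + 1)) R}
    {f' : Fin N → MvPolynomial (Fin N) R} (hf' : ∀ i, rename Fin.succ (f' i) = f i.succ)
    (y : R) (s : Fin N → R) :
    pmap f (Fin.cons y s) =
      Fin.cons (((finSuccEquiv R N (f 0)).map (eval s)).eval y) (pmap f' s) := by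
  ext i
  refine Fin.cases ?_ (fun i => ?_) i
  · rw [Fin.cons_zero]
    exact eval_eq_eval_mv_eval' s y (f 0)
  · rw [Fin.cons_succ, pmap, ← hf' i, eval_rename]
    congr 1

theorem degreeOf_tail {f : Fin (N + 1) → MvPolynomial (Fin (N + 1)) R}
    {f' : Fin N → MvPolynomial (Fin N) R} (hf' : ∀ i, rename Fin.succ (f' i) = f i.succ)
    (i : Fin N) : (f' i).degreeOf i = (f i.succ).degreeOf i.succ := by
  rw [← hf' i, degreeOf_rename_of_injective (Fin.succ_injective N)]

/-- the polynomials giving the first coordinate of the iterates over a base orbit -/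
noncomputable def itp (F : Polynomial (MvPolynomial (Fin N) R)) (s : ℕ → Fin N → R) :
    ℕ → Polynomial R
  | 0 => Polynomial.X
  | n + 1 => (F.map (eval (s n))).comp (itp F s n)

theorem iterate_cons {f : Fin (N + 1) → MvPolynomial (Fin (N + 1)) R}
    {f' : Fin N → MvPolynomial (Fin N) R} (hf' : ∀ i, rename Fin.succ (f' i) = f i.succ)
    (y : R) (s : Fin N → R) (n : ℕ) :
    (pmap f)^[n] (Fin.cons y s) =
      Fin.cons ((itp (finSuccEquiv R N (f 0)) (fun n => (pmap f')^[n] s) n).eval y)
        ((pmap f')^[n] s) := by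
  induction n with
  | zero => simp [itp]
  | succ n ih =>
    rw [Function.iterate_succ_apply', ih, pmap_cons hf', Function.iterate_succ_apply' (pmap f')]
    congr 1
    rw [itp, Polynomial.eval_comp]

end basic

section cycle

variable {κ : Type*} [Field κ] {N : ℕ}

theorem natDegree_itp {F : Polynomial (MvPolynomial (Fin N) κ)} {s : ℕ → Fin N → κ}
    (h : ∀ n, eval (s n) F.leadingCoeff ≠ 0) (n : ℕ) :
    (itp F s n).natDegree = F.natDegree ^ n := by
  induction n with
  | zero => simp [itp]
  | succ n ih =>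
    rw [itp, Polynomial.natDegree_comp, ih,
      Polynomial.natDegree_map_of_leadingCoeff_ne_zero _ (h n), pow_succ]
    ring

variable [IsAlgClosed κ]

/-- Over an algebraic closure of a finite field of odd characteristic, a dominant triangular map
has periodic orbits that avoid any given hypersurface. -/
theorem exists_cycle {p : ℕ} (hp : 1 ≤ p) (hpκ : (p : κ) = 0) (h2 : (2 : κ) ≠ 0)
    (hfin : ∀ a : κ, a ≠ 0 → ∃ n : ℕ, 1 ≤ n ∧ a ^ n = 1) :
    ∀ (N : ℕ) (f : Fin N → MvPolynomial (Fin N) κ), Tri f → (∀ i, 1 ≤ (f i).degreeOf i) →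
      ∀ b : MvPolynomial (Fin N) κ, b ≠ 0 → ∃ (Q : Fin N → κ) (r : ℕ), 1 ≤ r ∧
        (pmap f)^[r] Q = Q ∧ ∀ t, eval ((pmap f)^[t] Q) b ≠ 0 := by
  intro N
  induction N with
  | zero =>
    intro f _ _ b hb
    refine ⟨fun i => i.elim0, 1, le_rfl, Subsingleton.elim _ _, ?_⟩
    intro t
    rw [eq_C_of_isEmpty b] at hb ⊢
    rw [eval_C]
    intro h0
    rw [h0, map_zero] at hb
    exact hb rfl
  | succ N ih =>
    intro f hf hdeg b hb
    obtain ⟨f', hf'tri, hf'⟩ := hf.exists_tail
    have hdeg' : ∀ i, 1 ≤ (f' i).degreeOf i := by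
      intro i
      rw [degreeOf_tail hf' i]
      exact hdeg i.succ
    set F := finSuccEquiv κ N (f 0) with hF
    have hFdeg : 1 ≤ F.natDegree := by
      rw [hF, natDegree_finSuccEquiv]; exact hdeg 0
    have hF0 : F ≠ 0 := by
      intro h0
      rw [h0, Polynomial.natDegree_zero] at hFdeg
      omega
    set B := finSuccEquiv κ N b with hB
    have hB0 : B ≠ 0 := by
      intro h0
      exact hb ((finSuccEquiv κ N).injective (by rw [← hB, h0, map_zero]))
    obtain ⟨s, q, hq, hper, hs⟩ := ih f' hf'tri hdeg' (F.leadingCoeff * B.leadingCoeff)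
      (mul_ne_zero (Polynomial.leadingCoeff_ne_zero.mpr hF0)
        (Polynomial.leadingCoeff_ne_zero.mpr hB0))
    set sn : ℕ → Fin N → κ := fun n => (pmap f')^[n] s with hsn
    have hα : ∀ n, eval (sn n) F.leadingCoeff ≠ 0 := by
      intro n h0
      apply hs n
      rw [map_mul]
      change eval (sn n) _ * _ = 0
      rw [h0, zero_mul]
    have hβ : ∀ n, eval (sn n) B.leadingCoeff ≠ 0 := by
      intro n h0
      apply hs n
      rw [map_mul]
      change _ * eval (sn n) _ = 0
      rw [h0, mul_zero]
    have hG : ∀ n, 1 ≤ (itp F sn n).natDegree := by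
      intro n
      rw [natDegree_itp hα]
      exact Nat.one_le_pow _ _ (by omega)
    have hprod : (∏ m ∈ Finset.range q, (B.map (eval (sn m))).comp (itp F sn m)) ≠ 0 := by
      rw [Finset.prod_ne_zero_iff]
      intro m _
      apply comp_ne_zero_of_natDegree_pos _ (hG m)
      intro h0
      apply hβ m
      rw [Polynomial.leadingCoeff, ← Polynomial.coeff_map, h0, Polynomial.coeff_zero]
    obtain ⟨y, r, hr, hry, hy⟩ := exists_periodic hp hpκ h2 hfin (itp F sn q) _ (hG q) hprod
    have hstep : ∀ z, (pmap f)^[q] (Fin.cons z s) = Fin.cons ((itp F sn q).eval z) s := by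
      intro z
      rw [iterate_cons hf' z s q]
      congr 1
    have hstep2 : ∀ t z, ((pmap f)^[q])^[t] (Fin.cons z s) =
        Fin.cons ((fun z => (itp F sn q).eval z)^[t] z) s := by
      intro t
      induction t with
      | zero => intro z; rfl
      | succ t iht =>
        intro z
        rw [Function.iterate_succ_apply, hstep, iht, Function.iterate_succ_apply]
    refine ⟨Fin.cons y s, q * r, Nat.one_le_iff_ne_zero.mpr (by positivity), ?_, ?_⟩
    · rw [Function.iterate_mul, hstep2, hry]
    · intro t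
      have h1 : (pmap f)^[t] (Fin.cons y s) = Fin.cons
          ((itp F sn (t % q)).eval ((fun z => (itp F sn q).eval z)^[t / q] y)) (sn (t % q)) := by
        nth_rewrite 1 [← Nat.mod_add_div t q]
        rw [Function.iterate_add_apply, Function.iterate_mul, hstep2, iterate_cons hf']
      rw [h1, eval_eq_eval_mv_eval', ← hB]
      have h3 := hy (t / q)
      rw [Polynomial.eval_prod, Finset.prod_ne_zero_iff] at h3
      have h4 := h3 (t % q) (Finset.mem_range.mpr (Nat.mod_lt _ hq))
      rwa [Polynomial.eval_comp] at h4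

end cycle

end Pool.Agent.H12.ZD
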